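import Pool.Agent.H19.RWp.Ring
import Pool.Agent.H71.RW.Defs

/-!
# The crossing lemmas in the form of `Pool.Agent.H71.RW.Defs`
-/

set_option autoImplicit false

namespace Pool.Agent.H19.RWp

open Pool.Agent.H71 (RW.Sup RW.Bd RW.Cr RW.Rels)

variable {α : Type*} {R : α → α → Prop}

theorem hk_iff (w : List α) : Pool.Agent.H71.RW.Hk R w ↔ Hk R w := Iff.rfl

theorem cr_iff {u w : List α} {x y : α} : Pool.Agent.H71.RW.Cr R u x y w ↔ Cross R u x y w := by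
  constructor
  · rintro ⟨D1, D2, A1, A2, a, h1, h2, h3, h4, h5, h6, h7, h8⟩
    exact ⟨D1, D2, A1, a, A2, h1, h2, h3, h4, h7, h8, h5, h6⟩
  · rintro ⟨D1, D2, A1, a, A2, h1, h2, ⟨h3, h4, h7, h8, h5, h6⟩⟩
    exact ⟨D1, D2, A1, A2, a, h1, h2, h3, h4, h5, h6, h7, h8⟩

theorem Le.bd {w w' : List α} (h : Le R w w') {k : ℕ} (hb : Pool.Agent.H71.RW.Bd R w' k) :
    Pool.Agent.H71.RW.Bd R w k := by
  intro s hs hk
  obtain ⟨s', h1, h2, h3⟩ := h s hs hk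
  exact h3.trans (hb s' h1 h2)

end Pool.Agent.H19.RWp

namespace Pool.Agent.H19.RWp.B

open Pool.Agent.H71.RW (Sup Bd Cr Rels Rv)
open Pool.Agent.H19.RWp (cr_iff)

variable {α : Type*} {R : α → α → Prop} {u w : List α} {x y : α}

theorem inv_ge (h : Sup R) (hc : Cr R u x y w) (p : List α) (k : ℕ) :
    Bd R (p ++ y :: w) k → Bd R (p ++ u) k :=
  ((cr_iff.1 hc).inv1 h.tr h.nt p).bd

theorem inv_le (h : Sup R) (hc : Cr R u x y w) (p : List α) (k : ℕ) :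
    Bd R (p ++ u) k → Bd R (p ++ y :: w) k :=
  ((cr_iff.1 hc).inv2 h.tr h.nt p).bd

/-- the mirror image -/
theorem inv_ge' (h : Sup R) (hc : Cr R u x y w) (s : List α) (k : ℕ) :
    Bd R (u ++ x :: s) k → Bd R (w ++ s) k :=
  ((cr_iff.1 hc).inv3 h.tr h.nt s).bd

theorem inv_le' (h : Sup R) (hc : Cr R u x y w) (s : List α) (k : ℕ) :
    Bd R (w ++ s) k → Bd R (u ++ x :: s) k :=
  ((cr_iff.1 hc).inv4 h.tr h.nt s).bd

/-- Lemma ii -/
theorem ii (h : Sup R) (hu : Pool.Agent.H71.RW.Hk R u) (hx : ¬ Pool.Agent.H71.RW.Hk R (u ++ [x])) (p : List α) (k : ℕ) :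
    Bd R (p ++ u) k → Bd R (p ++ (u ++ [x])) k :=
  (Pool.Agent.H19.RWp.lemii h.tr h.nt (p := p) hu hx).bd

theorem ii' (h : Sup R) (hu : Pool.Agent.H71.RW.Hk R u) (hx : ¬ Pool.Agent.H71.RW.Hk R (x :: u)) (s : List α) (k : ℕ) :
    Bd R (u ++ s) k → Bd R (x :: (u ++ s)) k :=
  (Pool.Agent.H19.RWp.lemii' h.tr h.nt (s := s) hu hx).bd

theorem sup_rv (h : Sup R) : Sup (Rv R) :=
  ⟨Pool.Agent.H19.RWp.Rv.hR h.nt, Pool.Agent.H19.RWp.Rv.hN h.tr⟩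

theorem rv_rv (R : α → α → Prop) : Rv (Rv R) = R := Pool.Agent.H19.RWp.Rv_Rv R

theorem hk_rv (h : Pool.Agent.H71.RW.Hk R w) : Pool.Agent.H71.RW.Hk (Rv R) w.reverse := Pool.Agent.H19.RWp.Hk.rev h

theorem hk_rv' (h : Pool.Agent.H71.RW.Hk (Rv R) w) : Pool.Agent.H71.RW.Hk R w.reverse := Pool.Agent.H19.RWp.Hk.rev' h

theorem hk_sub (h : Pool.Agent.H71.RW.Hk R w) (hs : u.Sublist w) : Pool.Agent.H71.RW.Hk R u := Pool.Agent.H19.RWp.Hk.sub h hs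

theorem hk_three {a b c : α} (h : Pool.Agent.H71.RW.Hk R [a, b, c]) (hab : R a b) : R b c := Pool.Agent.H19.RWp.Hk.three h hab

/-- existence of the crossing -/
theorem cr_exists (h : Sup R) (hu : Pool.Agent.H71.RW.Hk R u) (hx : ¬ Pool.Agent.H71.RW.Hk R (u ++ [x])) : ∃ y w, Cr R u x y w := by
  obtain ⟨y, w, hc⟩ := Pool.Agent.H19.RWp.exists_Cross h.tr (x := x) hu hx
  exact ⟨y, w, cr_iff.2 hc⟩

/-- existence of the inverse crossing -/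
theorem cr_exists' (h : Sup R) (hw : Pool.Agent.H71.RW.Hk R w) (hy : ¬ Pool.Agent.H71.RW.Hk R (y :: w)) : ∃ u x, Cr R u x y w := by
  obtain ⟨u, x, hc⟩ := Pool.Agent.H19.RWp.exists_Cross' h.tr h.nt (y := y) hw hy
  exact ⟨u, x, cr_iff.2 hc⟩

theorem cr_unique {y' : α} {w' : List α} (h1 : Cr R u x y w) (h2 : Cr R u x y' w') : y = y' ∧ w = w' :=
  (cr_iff.1 h1).unique (cr_iff.1 h2)

theorem cr_unique' (h : Sup R) {x' : α} {u' : List α} (h1 : Cr R u x y w) (h2 : Cr R u' x' y w) :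
    u = u' ∧ x = x' :=
  (cr_iff.1 h1).unique' h.tr h.nt (cr_iff.1 h2)

theorem cr_rv (h : Sup R) (hc : Cr R u x y w) : Cr (Rv R) w.reverse y x u.reverse :=
  cr_iff.2 ((cr_iff.1 hc).rev h.tr h.nt)

theorem cr_rv' (h : Sup R) (hc : Cr (Rv R) u x y w) : Cr R w.reverse y x u.reverse :=
  cr_iff.2 ((cr_iff.1 hc).rev' h.tr h.nt)

theorem cr_hk (hc : Cr R u x y w) : Pool.Agent.H71.RW.Hk R u := (cr_iff.1 hc).hk

theorem cr_hk' (h : Sup R) (hc : Cr R u x y w) : Pool.Agent.H71.RW.Hk R w := (cr_iff.1 hc).hk' h.tr h.nt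

theorem cr_len (hc : Cr R u x y w) : w.length = u.length := (cr_iff.1 hc).len

theorem cr_not_hk (hc : Cr R u x y w) : ¬ Pool.Agent.H71.RW.Hk R (u ++ [x]) := (cr_iff.1 hc).not_hk

theorem cr_not_hk' (hc : Cr R u x y w) : ¬ Pool.Agent.H71.RW.Hk R (y :: w) := (cr_iff.1 hc).not_hk'

/-- the crossing is an identity of products -/
theorem cr_prod {S : Type*} [Ring S] {f : α → S} (h : Sup R) (hf : Rels R f) (hc : Cr R u x y w) :
    (u.map f).prod * f x = f y * (w.map f).prod := by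
  refine (cr_iff.1 hc).ring (X := fun a => (∀ e, R a e) ∧ (∀ e, R e a → e = a) ∧ f a * f a = 0) ?_ h.tr h.nt
  refine ⟨hf.k1, fun a b c h1 h2 h3 => ?_, fun o ho => ho.1, fun o ho => ho.2.1, fun o ho => ho.2.2⟩
  rcases hf.k2 a b c h1 h2 with h4 | ⟨h4, h5⟩
  · exact h4
  · exact absurd ⟨h5, h4⟩ h3

end Pool.Agent.H19.RWp.B
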