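import Pool.Agent.H19.RWp.Uni

/-!
# The sum of the hook words commutes with the sum of the letters

In the definitions of `Pool.Agent.H71.RW.Defs`.
-/

set_option autoImplicit false

open Finset

namespace Pool.Agent.H19.RWi

open Pool.Agent.H71.RW Pool.Agent.H19.RWp.B

variable {α : Type*} [Fintype α] {R : α → α → Prop} {S : Type*} [Ring S]

theorem HW_comm (h : Sup R) {f : α → S} (hf : Rels R f) (m : ℕ) :
    (∑ w ∈ HW R m, (w.map f).prod) * ∑ a, f a = (∑ a, f a) * ∑ w ∈ HW R m, (w.map f).prod := by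
  classical
  have e1 : (∑ w ∈ HW R m, (w.map f).prod) * ∑ a, f a = ∑ p ∈ HW R m ×ˢ (univ : Finset α), (p.1.map f).prod * f p.2 := by
    rw [sum_mul_sum, sum_product]
  have e2 : (∑ a, f a) * ∑ w ∈ HW R m, (w.map f).prod = ∑ p ∈ (univ : Finset α) ×ˢ HW R m, f p.1 * (p.2.map f).prod := by
    rw [sum_mul_sum, sum_product]
  rw [e1, e2, ← sum_filter_add_sum_filter_not _ (fun p => Hk R (p.1 ++ [p.2])),
    ← sum_filter_add_sum_filter_not (univ ×ˢ HW R m) (fun p => Hk R (p.1 :: p.2))]
  congr 1
  · -- both are the sum over the hook words of length `m + 1`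
    have e3 : ∑ p ∈ HW R m ×ˢ (univ : Finset α) with Hk R (p.1 ++ [p.2]), (p.1.map f).prod * f p.2 =
        ∑ v ∈ HW R (m + 1), (v.map f).prod := by
      refine sum_bij (fun p _ => p.1 ++ [p.2]) ?_ ?_ ?_ ?_
      · intro p hp
        rw [mem_filter, mem_product, mem_HW] at hp
        rw [mem_HW]
        exact ⟨by simp [hp.1.1.1], hp.2⟩
      · intro p _ q _ hpq
        obtain ⟨h1, h2⟩ := List.append_inj' hpq rfl
        exact Prod.ext h1 (by simpa using h2)
      · intro v hv
        rw [mem_HW] at hv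
        rcases List.eq_nil_or_concat v with rfl | ⟨w, x, rfl⟩
        · simp at hv
        · rw [List.concat_eq_append] at hv ⊢
          refine ⟨(w, x), ?_, rfl⟩
          rw [mem_filter, mem_product, mem_HW]
          exact ⟨⟨⟨by simpa using hv.1, hk_sub hv.2 (List.sublist_append_left _ _)⟩, mem_univ _⟩, hv.2⟩
      · intro p _
        simp
    have e4 : ∑ p ∈ (univ : Finset α) ×ˢ HW R m with Hk R (p.1 :: p.2), f p.1 * (p.2.map f).prod =
        ∑ v ∈ HW R (m + 1), (v.map f).prod := by
      refine sum_bij (fun p _ => p.1 :: p.2) ?_ ?_ ?_ ?_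
      · intro p hp
        rw [mem_filter, mem_product, mem_HW] at hp
        rw [mem_HW]
        exact ⟨by simp [hp.1.2.1], hp.2⟩
      · intro p _ q _ hpq
        simp only [List.cons.injEq] at hpq
        exact Prod.ext hpq.1 hpq.2
      · intro v hv
        rw [mem_HW] at hv
        match v, hv with
        | [], hv => simp at hv
        | x :: w, hv =>
          refine ⟨(x, w), ?_, rfl⟩
          rw [mem_filter, mem_product, mem_HW]
          exact ⟨⟨mem_univ _, by simpa using hv.1, hk_sub hv.2 (List.sublist_cons_self _ _)⟩, hv.2⟩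
      · intro p _
        simp
    rw [e3, e4]
  · -- the crossing
    have key : ∀ p : List α × α, p ∈ (HW R m ×ˢ (univ : Finset α)).filter (fun p => ¬ Hk R (p.1 ++ [p.2])) →
        ∃ y w, Cr R p.1 p.2 y w := by
      intro p hp
      rw [mem_filter, mem_product, mem_HW] at hp
      exact cr_exists h hp.1.1.2 hp.2
    choose Y W hYW using key
    refine sum_bij (fun p hp => (Y p hp, W p hp)) ?_ ?_ ?_ ?_
    · intro p hp
      have h1 := hYW p hp
      have hp' := hp
      rw [mem_filter, mem_product, mem_HW] at hp'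
      rw [mem_filter, mem_product, mem_HW]
      exact ⟨⟨mem_univ _, by rw [cr_len h1]; exact hp'.1.1.1, cr_hk' h h1⟩, cr_not_hk' h1⟩
    · intro p hp q hq hpq
      have h1 := hYW p hp
      have h2 := hYW q hq
      simp only [Prod.mk.injEq] at hpq
      rw [← hpq.1, ← hpq.2] at h2
      obtain ⟨h3, h4⟩ := cr_unique' h h1 h2
      exact Prod.ext h3 h4
    · rintro ⟨y, w⟩ hp
      rw [mem_filter, mem_product, mem_HW] at hp
      obtain ⟨u, x, h1⟩ := cr_exists' h hp.1.2.2 hp.2
      have h2 : (u, x) ∈ (HW R m ×ˢ (univ : Finset α)).filter (fun p => ¬ Hk R (p.1 ++ [p.2])) := by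
        rw [mem_filter, mem_product, mem_HW]
        exact ⟨⟨⟨by rw [← cr_len h1]; exact hp.1.2.1, cr_hk h1⟩, mem_univ _⟩, cr_not_hk h1⟩
      refine ⟨(u, x), h2, ?_⟩
      obtain ⟨h3, h4⟩ := cr_unique (hYW _ h2) h1
      exact Prod.ext h3 h4
    · intro p hp
      exact cr_prod h hf (hYW p hp)

/-- the sums over the chains commute with the sum of the letters, from the peak rule -/
theorem MM_commute (h : Sup R) {f : α → S} (hf : Rels R f)
    (PK : ∀ (T T2 : List (List α)) (w : List α) (ρ : List ℕ), Ch R T → InsL R T w T2 ρ → (Hk R w ↔ Hk Rp ρ))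
    (l : List ℕ) (hl : St l) : MM R f l * ∑ a, f a = (∑ a, f a) * MM R f l :=
  uni_commute (pie_of_peak h hf PK) _ (fun k hk => by
    rw [MM_one f hk]
    exact HW_comm h hf k) l hl

end Pool.Agent.H19.RWi
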