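import Pool.Agent.H19.RWp.Hook

/-!
# The crossing of a hook word and a letter

`u x = y u'` with `u = D1 d D2 A1 a A2`, `y = d`, `u' = D1 a D2 A1 x A2`.
-/

set_option autoImplicit false

namespace Pool.Agent.H19.RWp

variable {L : Type*}

/-- the data of a crossing -/
structure XD (R : L → L → Prop) (D1 : List L) (d : L) (D2 A1 : List L) (a : L) (A2 : List L) (x : L) : Prop where
  hD : DL R (D1 ++ d :: D2)
  hA : AL R (A1 ++ a :: A2)
  h1 : ∀ e ∈ D1, ¬ R e a
  h2 : R d a
  h3 : ∀ b ∈ A1, R b x
  h4 : ¬ R a x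

variable {R : L → L → Prop}

theorem split3 {s X Y : List L} {c : L} (h : s.Sublist (X ++ c :: Y)) :
    ∃ S1 S2, S1.Sublist X ∧ S2.Sublist Y ∧ (s = S1 ++ S2 ∨ s = S1 ++ c :: S2) := by
  obtain ⟨S1, t, rfl, h1, h2⟩ := List.sublist_append_iff.1 h
  rcases List.sublist_cons_iff.1 h2 with h3 | ⟨r, rfl, h3⟩
  · exact ⟨S1, t, h1, h3, Or.inl rfl⟩
  · exact ⟨S1, r, h1, h3, Or.inr rfl⟩

namespace XD

variable {D1 D2 A1 A2 : List L} {d a x : L}

theorem rD2 (hN : ∀ a b c, ¬ R a b → ¬ R b c → ¬ R a c) (h : XD R D1 d D2 A1 a A2 x) : ∀ e ∈ D2, R e a := by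
  intro e he
  by_contra hc
  have h1 := h.hD
  unfold DL at h1
  rw [List.pairwise_append, List.pairwise_cons] at h1
  exact hN _ _ _ (h1.2.1.1 e he) hc h.h2

theorem dD2 (h : XD R D1 d D2 A1 a A2 x) : ∀ e ∈ D2, ¬ R d e := by
  have h1 := h.hD
  unfold DL at h1
  rw [List.pairwise_append, List.pairwise_cons] at h1
  exact h1.2.1.1

theorem dD1 (h : XD R D1 d D2 A1 a A2 x) : ∀ e ∈ D1, ¬ R e d := by
  have h1 := h.hD
  unfold DL at h1
  rw [List.pairwise_append, List.pairwise_cons] at h1
  exact fun e he => h1.2.2 e he d (by simp)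

theorem aA2 (h : XD R D1 d D2 A1 a A2 x) : ∀ b ∈ A2, R a b := by
  have h1 := h.hA
  unfold AL at h1
  rw [List.pairwise_append, List.pairwise_cons] at h1
  exact h1.2.1.1

theorem aA1 (h : XD R D1 d D2 A1 a A2 x) : ∀ b ∈ A1, R b a := by
  have h1 := h.hA
  unfold AL at h1
  rw [List.pairwise_append, List.pairwise_cons] at h1
  exact fun e he => h1.2.2 e he a (by simp)

theorem xA2 (hR : ∀ a b c, R a b → R b c → R a c) (h : XD R D1 d D2 A1 a A2 x) : ∀ b ∈ A2, ¬ R b x :=
  fun b hb hc => h.h4 (hR _ _ _ (h.aA2 b hb) hc)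

theorem xA2' (hN : ∀ a b c, ¬ R a b → ¬ R b c → ¬ R a c) (h : XD R D1 d D2 A1 a A2 x) : ∀ b ∈ A2, R x b := by
  intro b hb
  by_contra hc
  exact hN _ _ _ h.h4 hc (h.aA2 b hb)

theorem aD2 (hR : ∀ a b c, R a b → R b c → R a c) (h : XD R D1 d D2 A1 a A2 x) : ∀ e ∈ D2, ¬ R a e :=
  fun e he hc => h.dD2 e he (hR _ _ _ h.h2 hc)

theorem xa (hN : ∀ a b c, ¬ R a b → ¬ R b c → ¬ R a c) (h : XD R D1 d D2 A1 a A2 x) (f : L) (hf : R f x) : R f a := by
  by_contra hc
  exact hN _ _ _ hc h.h4 hf

theorem xA1 (hR : ∀ a b c, R a b → R b c → R a c) (h : XD R D1 d D2 A1 a A2 x) : ∀ b ∈ A1, ¬ R a b :=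
  fun b hb hc => h.h4 (hR _ _ _ hc (h.h3 b hb))

theorem D1A1 (hR : ∀ a b c, R a b → R b c → R a c) (h : XD R D1 d D2 A1 a A2 x) :
    ∀ e ∈ D1, ∀ b ∈ A1, ¬ R e b :=
  fun e he b hb hc => h.h1 e he (hR _ _ _ hc (h.aA1 b hb))

theorem D1x (hN : ∀ a b c, ¬ R a b → ¬ R b c → ¬ R a c) (h : XD R D1 d D2 A1 a A2 x) : ∀ e ∈ D1, ¬ R e x :=
  fun e he hc => h.h1 e he (h.xa hN e hc)

theorem hD' (hR : ∀ a b c, R a b → R b c → R a c) (h : XD R D1 d D2 A1 a A2 x) : DL R (D1 ++ a :: D2) := by
  have h1 := h.hD
  unfold DL at *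
  rw [List.pairwise_append, List.pairwise_cons] at *
  refine ⟨h1.1, ⟨h.aD2 hR, h1.2.1.2⟩, fun e he b hb => ?_⟩
  rcases List.mem_cons.1 hb with rfl | hb
  · exact h.h1 e he
  · exact h1.2.2 e he b (by simp [hb])

theorem hA' (hN : ∀ a b c, ¬ R a b → ¬ R b c → ¬ R a c) (h : XD R D1 d D2 A1 a A2 x) : AL R (A1 ++ x :: A2) := by
  have h1 := h.hA
  unfold AL at *
  rw [List.pairwise_append, List.pairwise_cons] at *
  refine ⟨h1.1, ⟨h.xA2' hN, h1.2.1.2⟩, fun e he b hb => ?_⟩
  rcases List.mem_cons.1 hb with rfl | hb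
  · exact h.h3 e he
  · exact h1.2.2 e he b (by simp [hb])

end XD

theorem inv1 (hR : ∀ a b c, R a b → R b c → R a c) (hN : ∀ a b c, ¬ R a b → ¬ R b c → ¬ R a c)
    {p D1 D2 A1 A2 : List L} {d a x : L} (h : XD R D1 d D2 A1 a A2 x) :
    Le R (p ++ ((D1 ++ d :: D2) ++ (A1 ++ a :: A2))) (p ++ d :: ((D1 ++ a :: D2) ++ (A1 ++ x :: A2))) := by
  intro s hs hk
  have hD' := h.hD' hR
  have hA' := h.hA' hN
  rcases norm hN h.hD hs hk with ⟨G, I, e, S, rfl, hGI, he, hS, hG, hI, hes⟩ | ⟨P, E, S, rfl, hP, hE, hS, hPE⟩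
  · have hy : (e : List L).Sublist (d :: (D1 ++ a :: D2)) := by
      rcases hes with rfl | ⟨f, rfl⟩
      · simp
      · rw [List.singleton_sublist] at he ⊢
        simp only [List.mem_append, List.mem_cons] at he ⊢
        tauto
    obtain ⟨S1, S2, hS1, hS2, rfl | rfl⟩ := split3 hS
    · refine ⟨G ++ (I ++ (e ++ (S1 ++ S2))), ?_, Hk.mk hG hI, le_rfl⟩
      rw [← List.append_assoc G, ← List.cons_append]
      exact hGI.append (hy.append (hS1.append (hS2.cons _)))
    · by_cases h0 : S1 = []
      · subst h0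
        rcases hes with rfl | ⟨f, rfl⟩
        · refine ⟨G ++ (I ++ ([a] ++ S2)), ?_, Hk.mk hG (by simpa using hI), by simp⟩
          rw [← List.append_assoc G, ← List.cons_append]
          refine hGI.append (List.Sublist.append ?_ (hS2.trans ?_))
          · rw [List.singleton_sublist]; simp
          · exact (List.sublist_cons_self _ _).trans (List.sublist_append_right _ _)
        · have hfa : R f a := by
            unfold AL at hI
            rw [List.pairwise_append, List.pairwise_append] at hI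
            exact hI.2.1.2.2 f (by simp) a (by simp)
          have hfd : ∀ i, R i f → R i d := by
            intro i hi
            rw [List.singleton_sublist] at he
            rcases List.mem_append.1 he with he | he
            · exact absurd hfa (h.h1 f he)
            · rcases List.mem_cons.1 he with rfl | he
              · exact hi
              · by_contra hc
                exact hN _ _ _ hc (h.dD2 f he) hi
          refine ⟨G ++ (I ++ ([d] ++ ([a] ++ S2))), ?_, Hk.mk hG ?_, by simp⟩
          · rw [← List.append_assoc G]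
            refine hGI.append ?_
            rw [List.singleton_append, List.cons_sublist_cons]
            refine List.Sublist.append ?_ (hS2.trans ?_)
            · rw [List.singleton_sublist]; simp
            · exact (List.sublist_cons_self _ _).trans (List.sublist_append_right _ _)
          · unfold AL at hI ⊢
            simp only [List.pairwise_append, List.pairwise_cons, List.nil_append, List.mem_cons, List.cons_append] at hI ⊢
            refine ⟨hI.1, ⟨?_, hI.2.1.2⟩, ?_⟩
            · rintro b (rfl | hb)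
              · exact h.h2
              · exact hR _ _ _ h.h2 (h.aA2 b (hS2.subset hb))
            · rintro i hi b (rfl | hb)
              · exact hfd i (hI.2.2 i hi f (Or.inl rfl))
              · exact hI.2.2 i hi b (Or.inr hb)
      · obtain ⟨b, hb⟩ := List.exists_mem_of_ne_nil _ h0
        refine ⟨G ++ (I ++ (e ++ (S1 ++ x :: S2))), ?_, Hk.mk hG ?_, by simp⟩
        · rw [← List.append_assoc G, ← List.cons_append]
          exact hGI.append (hy.append (hS1.append (hS2.cons_cons _)))
        · have hx : R b x := h.h3 b (hS1.subset hb)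
          have hS' : AL R (S1 ++ x :: S2) := hA'.sub (hS1.append (hS2.cons_cons _))
          unfold AL at hI hS' ⊢
          simp only [List.pairwise_append, List.pairwise_cons, List.mem_cons, List.mem_append] at hI hS' ⊢
          refine ⟨hI.1, ⟨hI.2.1.1, hS', ?_⟩, ?_⟩
          · rintro f hf c (hc | rfl | hc)
            · exact hI.2.1.2.2 f hf c (Or.inl hc)
            · exact hR _ _ _ (hI.2.1.2.2 f hf b (Or.inl hb)) hx
            · exact hI.2.1.2.2 f hf c (Or.inr (Or.inr hc))
          · rintro f hf c (hc | hc | rfl | hc)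
            · exact hI.2.2 f hf c (Or.inl hc)
            · exact hI.2.2 f hf c (Or.inr (Or.inl hc))
            · exact hR _ _ _ (hI.2.2 f hf b (Or.inr (Or.inl hb))) hx
            · exact hI.2.2 f hf c (Or.inr (Or.inr (Or.inr hc)))
  · have hS' : ∃ S' : List L, S'.Sublist (A1 ++ x :: A2) ∧ S'.length = S.length := by
      obtain ⟨S1, S2, hS1, hS2, rfl | rfl⟩ := split3 hS
      · exact ⟨S1 ++ S2, hS1.append (hS2.cons _), rfl⟩
      · exact ⟨S1 ++ x :: S2, hS1.append (hS2.cons_cons _), by simp⟩
    obtain ⟨S', hS'1, hS'2⟩ := hS'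
    obtain ⟨E1, E2, hE1, hE2, rfl | rfl⟩ := split3 hE
    · refine ⟨P ++ ((E1 ++ E2) ++ S'), ?_, ?_, by simp [hS'2]⟩
      · exact hP.append (List.Sublist.cons _ ((hE1.append (hE2.cons _)).append hS'1))
      · rw [← List.append_assoc]
        exact Hk.mk hPE (hA'.sub hS'1)
    · by_cases h0 : E1 = []
      · subst h0
        refine ⟨P ++ ((d :: E2) ++ S'), ?_, ?_, by simp [hS'2]⟩
        · refine hP.append ?_
          rw [List.cons_append, List.cons_sublist_cons]
          refine List.Sublist.append ?_ hS'1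
          exact hE2.trans ((List.sublist_cons_self _ _).trans (List.sublist_append_right _ _))
        · rw [← List.append_assoc]
          exact Hk.mk (by simpa using hPE) (hA'.sub hS'1)
      · obtain ⟨g, hg⟩ := List.exists_mem_of_ne_nil _ h0
        refine ⟨P ++ ((E1 ++ a :: E2) ++ S'), ?_, ?_, by simp [hS'2]⟩
        · exact hP.append (List.Sublist.cons _ ((hE1.append (hE2.cons_cons _)).append hS'1))
        · rw [← List.append_assoc]
          refine Hk.mk ?_ (hA'.sub hS'1)
          have hE' : DL R (E1 ++ a :: E2) := hD'.sub (hE1.append (hE2.cons_cons _))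
          unfold DL at hPE hE' ⊢
          rw [List.pairwise_append] at hPE ⊢
          refine ⟨hPE.1, hE', fun i hi c hc => ?_⟩
          simp only [List.mem_append, List.mem_cons] at hc
          rcases hc with hc | rfl | hc
          · exact hPE.2.2 i hi c (by simp [hc])
          · exact hN _ _ _ (hPE.2.2 i hi g (by simp [hg])) (h.h1 g (hE1.subset hg))
          · exact hPE.2.2 i hi c (by simp [hc])

/-- the way back, `p ++ E` with `E` and `p` in one D-list -/
theorem inv2b (hR : ∀ a b c, R a b → R b c → R a c)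
    {p D1 D2 A1 A2 P E S : List L} {d a x : L} (h : XD R D1 d D2 A1 a A2 x)
    (hP : P.Sublist (p ++ [d])) (hE : E.Sublist (D1 ++ a :: D2)) (hS : S.Sublist (A1 ++ x :: A2))
    (hPE : DL R (P ++ E)) :
    ∃ s', s'.Sublist (p ++ ((D1 ++ d :: D2) ++ (A1 ++ a :: A2))) ∧ Hk R s' ∧ (P ++ (E ++ S)).length ≤ s'.length := by
  obtain ⟨S', hS'1, hS'2⟩ : ∃ S' : List L, S'.Sublist (A1 ++ a :: A2) ∧ S'.length = S.length := by
    obtain ⟨S1, S2, hS1, hS2, rfl | rfl⟩ := split3 hS
    · exact ⟨S1 ++ S2, hS1.append (hS2.cons _), rfl⟩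
    · exact ⟨S1 ++ a :: S2, hS1.append (hS2.cons_cons _), by simp⟩
  obtain ⟨E1, E2, hE1, hE2, hE3⟩ := split3 hE
  obtain ⟨P0, P1, hP0, hP1, hP3⟩ := split3 (Y := []) hP
  have hP2 : P1 = [] := by simpa using hP1
  subst hP2
  have hD12 : DL R (E1 ++ d :: E2) := h.hD.sub (hE1.append (hE2.cons_cons _))
  have key : ∀ Q : List L, Q = E1 ++ E2 ∨ Q = E1 ++ d :: E2 → DL R (P0 ++ Q) → (P ++ E).length ≤ (P0 ++ Q).length →
      ∃ s' : List L, s'.Sublist (p ++ ((D1 ++ d :: D2) ++ (A1 ++ a :: A2))) ∧ Hk R s' ∧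
        (P ++ (E ++ S)).length ≤ s'.length := by
    intro Q hQ hQ2 hl
    refine ⟨P0 ++ (Q ++ S'), hP0.append (List.Sublist.append ?_ hS'1), ?_, ?_⟩
    · rcases hQ with rfl | rfl
      · exact hE1.append (hE2.cons _)
      · exact hE1.append (hE2.cons_cons _)
    · rw [← List.append_assoc]
      exact Hk.mk hQ2 (h.hA.sub hS'1)
    · simp only [List.length_append] at hl ⊢
      omega
  rcases hE3 with rfl | rfl <;> rcases hP3 with rfl | rfl
  · exact key _ (Or.inl rfl) (by simpa using hPE) (by simp)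
  · refine key _ (Or.inr rfl) ?_ (by simp)
    unfold DL at hPE hD12 ⊢
    rw [List.append_assoc, List.pairwise_append] at hPE
    rw [List.pairwise_append]
    refine ⟨hPE.1, hD12, fun i hi c hc => hPE.2.2 i hi c ?_⟩
    simp only [List.mem_append, List.mem_cons] at hc ⊢
    tauto
  · refine key _ (Or.inr rfl) ?_ (by simp)
    unfold DL at hPE hD12 ⊢
    rw [List.append_nil, List.pairwise_append] at hPE
    rw [List.pairwise_append]
    refine ⟨hPE.1, hD12, fun i hi c hc => ?_⟩
    simp only [List.mem_append, List.mem_cons] at hc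
    rcases hc with hc | rfl | hc
    · exact hPE.2.2 i hi c (by simp [hc])
    · exact fun hc => hPE.2.2 i hi a (by simp) (hR _ _ _ hc h.h2)
    · exact hPE.2.2 i hi c (by simp [hc])
  · exfalso
    unfold DL at hPE
    rw [List.pairwise_append] at hPE
    exact hPE.2.2 d (by simp) a (by simp) h.h2

/-- the word `I` after `x → a` -/
theorem xaS (hN : ∀ a b c, ¬ R a b → ¬ R b c → ¬ R a c)
    {D1 D2 A1 A2 J S : List L} {d a x : L} (h : XD R D1 d D2 A1 a A2 x) (hS : S.Sublist (A1 ++ x :: A2))
    (hI : AL R (J ++ S)) : ∃ S' : List L, S'.Sublist (A1 ++ a :: A2) ∧ S'.length = S.length ∧ AL R (J ++ S') := by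
  obtain ⟨S1, S2, hS1, hS2, rfl | rfl⟩ := split3 hS
  · exact ⟨S1 ++ S2, hS1.append (hS2.cons _), rfl, hI⟩
  · have hA : AL R (S1 ++ a :: S2) := h.hA.sub (hS1.append (hS2.cons_cons _))
    refine ⟨S1 ++ a :: S2, hS1.append (hS2.cons_cons _), by simp, ?_⟩
    unfold AL at hI hA ⊢
    rw [List.pairwise_append] at hI ⊢
    refine ⟨hI.1, hA, fun i hi c hc => ?_⟩
    simp only [List.mem_append, List.mem_cons] at hc
    rcases hc with hc | rfl | hc
    · exact hI.2.2 i hi c (by simp [hc])
    · exact h.xa hN i (hI.2.2 i hi x (by simp))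
    · exact hI.2.2 i hi c (by simp [hc])

/-- after the letter `a` only letters of `A2` -/
theorem afterA (hR : ∀ a b c, R a b → R b c → R a c)
    {D1 D2 A1 A2 S : List L} {d a x : L} (h : XD R D1 d D2 A1 a A2 x) (hS : S.Sublist (A1 ++ x :: A2))
    (hI : ∀ b ∈ S, R a b) : S.Sublist A2 := by
  obtain ⟨S1, S2, hS1, hS2, rfl | rfl⟩ := split3 hS
  · have h0 : S1 = [] := by
      by_contra h0
      obtain ⟨b, hb⟩ := List.exists_mem_of_ne_nil _ h0
      exact h.xA1 hR b (hS1.subset hb) (hI b (by simp [hb]))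
    subst h0
    simpa using hS2
  · exact absurd (hI x (by simp)) h.h4

/-- after a letter of `D1` only letters of `A2` -/
theorem afterD (hR : ∀ a b c, R a b → R b c → R a c) (hN : ∀ a b c, ¬ R a b → ¬ R b c → ¬ R a c)
    {D1 D2 A1 A2 S : List L} {d a x f : L} (h : XD R D1 d D2 A1 a A2 x) (hS : S.Sublist (A1 ++ x :: A2))
    (hf : f ∈ D1) (hI : ∀ b ∈ S, R f b) : S.Sublist A2 := by
  obtain ⟨S1, S2, hS1, hS2, rfl | rfl⟩ := split3 hS
  · have h0 : S1 = [] := by
      by_contra h0
      obtain ⟨b, hb⟩ := List.exists_mem_of_ne_nil _ h0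
      exact h.D1A1 hR f hf b (hS1.subset hb) (hI b (by simp [hb]))
    subst h0
    simpa using hS2
  · exact absurd (hI x (by simp)) (h.D1x hN f hf)

/-- the way back, the letter `d` used as a first ascending letter -/
theorem inv2c (hR : ∀ a b c, R a b → R b c → R a c) (hN : ∀ a b c, ¬ R a b → ¬ R b c → ¬ R a c)
    {p D1 D2 A1 A2 G I e S : List L} {d a x : L} (h : XD R D1 d D2 A1 a A2 x)
    (hGI : (G ++ I).Sublist p) (he : e.Sublist (D1 ++ a :: D2)) (hS : S.Sublist (A1 ++ x :: A2))
    (hes : e = [] ∨ ∃ f, e = [f]) (hG : DL R G) (hI : AL R (I ++ (d :: (e ++ S)))) :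
    ∃ s', s'.Sublist (p ++ ((D1 ++ d :: D2) ++ (A1 ++ a :: A2))) ∧ Hk R s' ∧
      (G ++ (I ++ (d :: (e ++ S)))).length ≤ s'.length := by
  have hd : ([d] : List L).Sublist (D1 ++ d :: D2) := by rw [List.singleton_sublist]; simp
  rcases hes with rfl | ⟨f, rfl⟩
  · have hI' : AL R ((I ++ [d]) ++ S) := by simpa using hI
    obtain ⟨S', h1, h2, h3⟩ := xaS hN h hS hI'
    refine ⟨G ++ ((I ++ [d]) ++ S'), ?_, Hk.mk hG h3, by simp [h2]⟩
    have : G ++ ((I ++ [d]) ++ S') = (G ++ I) ++ ([d] ++ S') := by simp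
    rw [this]
    exact hGI.append (hd.append h1)
  · have hI0 := hI
    unfold AL at hI0
    rw [List.pairwise_append, List.pairwise_cons] at hI0
    have hdf : R d f := hI0.2.1.1 f (by simp)
    have hfS : ∀ b ∈ S, R f b := by
      have := hI0.2.1.2
      rw [List.singleton_append, List.pairwise_cons] at this
      exact this.1
    have hS2 : S.Sublist A2 := by
      rw [List.singleton_sublist] at he
      rcases List.mem_append.1 he with he | he
      · exact afterD hR hN h hS he hfS
      · rcases List.mem_cons.1 he with rfl | he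
        · exact afterA hR h hS hfS
        · exact absurd hdf (h.dD2 f he)
    refine ⟨G ++ (I ++ ([d] ++ ([a] ++ S))), ?_, Hk.mk hG ?_, by simp⟩
    · rw [← List.append_assoc G]
      refine hGI.append (hd.append ?_)
      exact (hS2.cons_cons a).trans (List.sublist_append_right _ _)
    · unfold AL
      simp only [List.singleton_append, List.pairwise_append, List.pairwise_cons, List.mem_cons]
      have hSS : S.Pairwise R := by
        have := hI0.2.1.2
        rw [List.singleton_append, List.pairwise_cons] at this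
        exact this.2
      refine ⟨hI0.1, ⟨?_, fun b hb => h.aA2 b (hS2.subset hb), hSS⟩, ?_⟩
      · rintro b (rfl | hb)
        · exact h.h2
        · exact hR _ _ _ h.h2 (h.aA2 b (hS2.subset hb))
      · rintro i hi b (rfl | rfl | hb)
        · exact hI0.2.2 i hi b (by simp)
        · exact hR _ _ _ (hI0.2.2 i hi d (by simp)) h.h2
        · exact hI0.2.2 i hi b (by simp [hb])

/-- the way back, the letter `d` not used -/
theorem inv2d (hR : ∀ a b c, R a b → R b c → R a c) (hN : ∀ a b c, ¬ R a b → ¬ R b c → ¬ R a c)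
    {p D1 D2 A1 A2 G I e S : List L} {d a x : L} (h : XD R D1 d D2 A1 a A2 x)
    (hGI : (G ++ I).Sublist p) (he : e.Sublist (D1 ++ a :: D2)) (hS : S.Sublist (A1 ++ x :: A2))
    (hes : e = [] ∨ ∃ f, e = [f]) (hG : DL R G) (hI : AL R (I ++ (e ++ S))) :
    ∃ s', s'.Sublist (p ++ ((D1 ++ d :: D2) ++ (A1 ++ a :: A2))) ∧ Hk R s' ∧
      (G ++ (I ++ (e ++ S))).length ≤ s'.length := by
  rcases hes with rfl | ⟨f, rfl⟩
  · obtain ⟨S', h1, h2, h3⟩ := xaS hN h hS (by simpa using hI)
    refine ⟨G ++ (I ++ S'), ?_, Hk.mk hG h3, by simp [h2]⟩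
    rw [← List.append_assoc]
    exact hGI.append (h1.trans (List.sublist_append_right _ _))
  · have hfS : ∀ b ∈ S, R f b := by
      unfold AL at hI
      rw [List.pairwise_append, List.singleton_append, List.pairwise_cons] at hI
      exact hI.2.1.1
    rw [List.singleton_sublist] at he
    rcases List.mem_append.1 he with he | he
    · have hS2 := afterD hR hN h hS he hfS
      refine ⟨G ++ (I ++ ([f] ++ S)), ?_, Hk.mk hG hI, le_rfl⟩
      rw [← List.append_assoc G]
      refine hGI.append (List.Sublist.append ?_ ?_)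
      · rw [List.singleton_sublist]; simp [he]
      · exact hS2.trans ((List.sublist_cons_self _ _).trans (List.sublist_append_right _ _))
    · rcases List.mem_cons.1 he with rfl | he
      · have hS2 := afterA hR h hS hfS
        refine ⟨G ++ (I ++ ([f] ++ S)), ?_, Hk.mk hG hI, le_rfl⟩
        rw [← List.append_assoc G]
        refine hGI.append ?_
        rw [List.singleton_append]
        exact (hS2.cons_cons f).trans ((List.sublist_append_right _ _).trans (List.sublist_append_right _ _))
      · rw [← List.append_assoc] at hI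
        obtain ⟨S', h1, h2, h3⟩ := xaS hN h hS hI
        refine ⟨G ++ ((I ++ [f]) ++ S'), ?_, Hk.mk hG h3, by simp [h2]⟩
        have : G ++ ((I ++ [f]) ++ S') = (G ++ I) ++ ([f] ++ S') := by simp
        rw [this]
        refine hGI.append (List.Sublist.append ?_ h1)
        rw [List.singleton_sublist]; simp [he]

theorem inv2 (hR : ∀ a b c, R a b → R b c → R a c) (hN : ∀ a b c, ¬ R a b → ¬ R b c → ¬ R a c)
    {p D1 D2 A1 A2 : List L} {d a x : L} (h : XD R D1 d D2 A1 a A2 x) :
    Le R (p ++ d :: ((D1 ++ a :: D2) ++ (A1 ++ x :: A2))) (p ++ ((D1 ++ d :: D2) ++ (A1 ++ a :: A2))) := by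
  intro s hs hk
  have hs' : s.Sublist ((p ++ [d]) ++ ((D1 ++ a :: D2) ++ (A1 ++ x :: A2))) := by simpa using hs
  rcases norm hN (h.hD' hR) hs' hk with ⟨G, I, e, S, rfl, hGI, he, hS, hG, hI, hes⟩ | ⟨P, E, S, rfl, hP, hE, hS, hPE⟩
  · obtain ⟨Q, Q1, hQ, hQ1, hQ3⟩ := split3 (Y := []) hGI
    have hQ2 : Q1 = [] := by simpa using hQ1
    subst hQ2
    rcases hQ3 with hQ3 | hQ3
    · rw [List.append_nil] at hQ3
      exact inv2d hR hN h (by rw [hQ3]; exact hQ) he hS hes hG hI
    · rcases List.eq_nil_or_concat I with rfl | ⟨I0, i, rfl⟩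
      · rw [List.append_nil] at hQ3
        subst hQ3
        rcases hes with rfl | ⟨f, rfl⟩
        · have := inv2b hR (P := Q ++ [d]) (E := []) h (hQ.append (List.Sublist.refl _)) (by simp) hS (by simpa using hG)
          simpa using this
        · by_cases hdf : R d f
          · have hG0 : DL R Q := hG.sub (List.sublist_append_left _ _)
            have := inv2c hR hN (G := Q) (I := []) h (by simpa using hQ) he hS (Or.inr ⟨f, rfl⟩) hG0 (by
              unfold AL at hI ⊢
              simp only [List.nil_append, List.singleton_append, List.pairwise_cons, List.mem_cons] at hI ⊢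
              refine ⟨?_, hI⟩
              rintro b (rfl | hb)
              · exact hdf
              · exact hR _ _ _ hdf (hI.1 b hb))
            simpa using this
          · have hPE : DL R ((Q ++ [d]) ++ [f]) := by
              unfold DL at hG ⊢
              rw [List.pairwise_append] at hG ⊢
              refine ⟨List.pairwise_append.2 hG, by simp, fun i hi c hc => ?_⟩
              have hc' : c = f := by simpa using hc
              subst hc'
              rcases List.mem_append.1 hi with hi | hi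
              · exact hN _ _ _ (hG.2.2 i hi d (by simp)) hdf
              · have : i = d := by simpa using hi
                rw [this]; exact hdf
            have := inv2b hR (P := Q ++ [d]) (E := [f]) h (hQ.append (List.Sublist.refl _)) he hS hPE
            simpa using this
      · simp only [List.concat_eq_append] at hQ3 hI hGI ⊢
        rw [← List.append_assoc] at hQ3
        obtain ⟨h1, h2⟩ := List.append_inj' hQ3 rfl
        have h3 : i = d := by simpa using h2
        subst h3
        have := inv2c (p := p) hR hN (G := G) (I := I0) h (by rw [h1]; exact hQ) he hS hes hG (by simpa using hI)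
        simpa using this
  · exact inv2b hR h hP hE hS hPE

end Pool.Agent.H19.RWp
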