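import Pool.Agent.H19.RWp.Cross

/-!
# Existence of the crossing, and the case of a letter which does not extend the hook word
-/

set_option autoImplicit false

namespace Pool.Agent.H19.RWp

variable {L : Type*} {R : L → L → Prop}

theorem Hk.sub {s w : List L} (h : Hk R w) (hs : s.Sublist w) : Hk R s := by
  obtain ⟨D, A, rfl, hD, hA⟩ := h
  obtain ⟨S1, S2, rfl, h1, h2⟩ := List.sublist_append_iff.1 hs
  exact Hk.mk (hD.sub h1) (hA.sub h2)

theorem Hk.three {a b c : L} (h : Hk R [a, b, c]) (hab : R a b) : R b c := by
  obtain ⟨D, A, hw, hD, hA⟩ := h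
  match D, hw, hD with
  | [], hw, _ =>
    have : A = [a, b, c] := by simpa using hw.symm
    subst this
    unfold AL at hA
    simp only [List.pairwise_cons, List.mem_cons] at hA
    exact hA.2.1 c (by simp)
  | [a'], hw, _ =>
    have : A = [b, c] := by
      have := hw.symm
      simp only [List.singleton_append, List.cons.injEq] at this
      exact this.2
    subst this
    unfold AL at hA
    simp only [List.pairwise_cons, List.mem_cons] at hA
    exact hA.1 c (by simp)
  | a' :: b' :: D', hw, hD =>
    exfalso
    simp only [List.cons_append, List.cons.injEq] at hw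
    obtain ⟨rfl, rfl, _⟩ := hw
    unfold DL at hD
    simp only [List.pairwise_cons, List.mem_cons] at hD
    exact hD.1 b (by simp) hab

theorem firstNot {P : L → Prop} : ∀ {A : List L}, ¬ (∀ b ∈ A, P b) →
    ∃ A1 a A2, A = A1 ++ a :: A2 ∧ (∀ b ∈ A1, P b) ∧ ¬ P a := by
  intro A
  induction A with
  | nil => intro h; exact absurd (by simp) h
  | cons c A ih =>
    intro h
    by_cases hc : P c
    · have : ¬ ∀ b ∈ A, P b := by
        intro h'
        apply h
        intro b hb
        rcases List.mem_cons.1 hb with rfl | hb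
        · exact hc
        · exact h' b hb
      obtain ⟨A1, a, A2, rfl, h1, h2⟩ := ih this
      refine ⟨c :: A1, a, A2, rfl, ?_, h2⟩
      intro b hb
      rcases List.mem_cons.1 hb with rfl | hb
      · exact hc
      · exact h1 b hb
    · exact ⟨[], c, A, rfl, by simp, hc⟩

/-- the decomposition with the longest first part -/
theorem nform : ∀ (A D : List L), DL R D → AL R A → ∃ D' A', D ++ A = D' ++ A' ∧ DL R D' ∧ AL R A' ∧
    (A' = [] ∨ ∃ h A'', A' = h :: A'' ∧ ∃ e ∈ D', R e h) := by
  intro A
  induction A with
  | nil => intro D hD hA; exact ⟨D, [], rfl, hD, hA, Or.inl rfl⟩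
  | cons h A ih =>
    intro D hD hA
    by_cases hc : ∃ e ∈ D, R e h
    · exact ⟨D, h :: A, rfl, hD, hA, Or.inr ⟨h, A, rfl, hc⟩⟩
    · have hD' : DL R (D ++ [h]) := by
        unfold DL at *
        rw [List.pairwise_append]
        refine ⟨hD, by simp, fun e he b hb => ?_⟩
        have : b = h := by simpa using hb
        subst this
        exact fun hr => hc ⟨e, he, hr⟩
      obtain ⟨D', A', h1, h2⟩ := ih (D ++ [h]) hD' (hA.sub (List.sublist_cons_self _ _))
      exact ⟨D', A', by rw [← h1]; simp, h2⟩

/-- a letter which does not extend the hook word crosses it -/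
theorem exists_XD (hR : ∀ a b c, R a b → R b c → R a c) {u : List L} {x : L}
    (hu : Hk R u) (hx : ¬ Hk R (u ++ [x])) :
    ∃ D1 d D2 A1 a A2, u = (D1 ++ d :: D2) ++ (A1 ++ a :: A2) ∧ XD R D1 d D2 A1 a A2 x := by
  obtain ⟨D0, A0, rfl, hD0, hA0⟩ := hu
  obtain ⟨D, A, h0, hD, hA, hn⟩ := nform A0 D0 hD0 hA0
  rw [h0] at hx ⊢
  have h1 : ¬ ∀ b ∈ A, R b x := by
    intro h1
    apply hx
    rw [List.append_assoc]
    refine Hk.mk hD ?_
    unfold AL at *
    rw [List.pairwise_append]
    exact ⟨hA, by simp, fun b hb c hc => by
      have : c = x := by simpa using hc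
      rw [this]; exact h1 b hb⟩
  obtain ⟨A1, a, A2, rfl, h2, h3⟩ := firstNot h1
  rcases hn with hn | ⟨h, A'', hn, e, he, heh⟩
  · simp at hn
  · have hea : R e a := by
      rcases A1 with _ | ⟨g, A1⟩
      · simp only [List.nil_append, List.cons.injEq] at hn
        rw [hn.1]; exact heh
      · simp only [List.cons_append, List.cons.injEq] at hn
        obtain ⟨rfl, rfl⟩ := hn
        refine hR _ _ _ heh ?_
        unfold AL at hA
        rw [List.cons_append, List.pairwise_cons] at hA
        exact hA.1 a (by simp)
    have h4 : ¬ ∀ f ∈ D, ¬ R f a := fun h4 => h4 e he hea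
    obtain ⟨D1, d, D2, rfl, h5, h6⟩ := firstNot h4
    exact ⟨D1, d, D2, A1, a, A2, rfl, ⟨hD, hA, h5, by simpa using h6, h2, h3⟩⟩

/-- pivot form -/
theorem exists_pivot (hR : ∀ a b c, R a b → R b c → R a c) (hN : ∀ a b c, ¬ R a b → ¬ R b c → ¬ R a c)
    {u : List L} {x : L} (hu : Hk R u) (hx : ¬ Hk R (u ++ [x])) :
    ∃ D e A q, u = D ++ e :: (A ++ [q]) ∧ DL R (D ++ [e]) ∧ AL R (e :: (A ++ [q])) ∧ ¬ R q x := by
  obtain ⟨D0, A0, rfl, hD0, hA0⟩ := hu
  obtain ⟨D, A, h0, hD, hA, hn⟩ := nform A0 D0 hD0 hA0
  rw [h0] at hx ⊢
  rcases hn with rfl | ⟨h, A'', rfl, e, he, heh⟩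
  · exfalso
    apply hx
    rw [List.append_nil]
    exact Hk.mk hD (by unfold AL; simp)
  · rcases List.eq_nil_or_concat D with rfl | ⟨D', l, rfl⟩
    · simp at he
    · simp only [List.concat_eq_append] at *
      have hlh : R l h := by
        rcases List.mem_append.1 he with he | he
        · by_contra hc
          unfold DL at hD
          rw [List.pairwise_append] at hD
          exact hN _ _ _ (hD.2.2 e he l (by simp)) hc heh
        · have : e = l := by simpa using he
          rw [← this]; exact heh
      have hlA : AL R (l :: h :: A'') := by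
        unfold AL at *
        rw [List.pairwise_cons]
        refine ⟨?_, hA⟩
        intro b hb
        rcases List.mem_cons.1 hb with rfl | hb
        · exact hlh
        · rw [List.pairwise_cons] at hA
          exact hR _ _ _ hlh (hA.1 b hb)
      rcases List.eq_nil_or_concat (h :: A'') with h1 | ⟨A', q, h1⟩
      · simp at h1
      · rw [List.concat_eq_append] at h1
        rw [h1] at hlA hA hx ⊢
        refine ⟨D', l, A', q, by simp, hD, hlA, ?_⟩
        intro hq
        apply hx
        rw [List.append_assoc]
        refine Hk.mk hD ?_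
        unfold AL at *
        rw [List.pairwise_append]
        refine ⟨hA, by simp, fun b hb c hc => ?_⟩
        have : c = x := by simpa using hc
        rw [this]
        rcases List.mem_append.1 hb with hb | hb
        · refine hR _ _ _ ?_ hq
          rw [List.pairwise_append] at hA
          exact hA.2.2 b hb q (by simp)
        · have : b = q := by simpa using hb
          rw [this]; exact hq

/-- a subword of `w ++ [q]` -/
theorem splitLast {s w : List L} {q : L} (h : s.Sublist (w ++ [q])) :
    s.Sublist w ∨ ∃ s', s = s' ++ [q] ∧ s'.Sublist w := by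
  obtain ⟨S1, S2, h1, h2, h3⟩ := split3 (Y := []) h
  have h4 : S2 = [] := by simpa using h2
  subst h4
  rcases h3 with rfl | rfl
  · left; simpa using h1
  · right; exact ⟨S1, rfl, h1⟩

/-- Lemma ii: a letter which does not extend the hook word `u` does not extend the hook length of `p ++ u` -/
theorem lemii (hR : ∀ a b c, R a b → R b c → R a c) (hN : ∀ a b c, ¬ R a b → ¬ R b c → ¬ R a c)
    {p u : List L} {x : L} (hu : Hk R u) (hx : ¬ Hk R (u ++ [x])) : Le R (p ++ (u ++ [x])) (p ++ u) := by
  obtain ⟨D, e, A, q, rfl, hD, hA, hq⟩ := exists_pivot hR hN hu hx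
  intro s hs hk
  rw [← List.append_assoc] at hs
  rcases splitLast hs with hs | ⟨H, rfl, hH⟩
  · exact ⟨s, hs, hk, le_rfl⟩
  have hxq : ∀ i, R i x → R i q := by
    intro i hi
    by_contra hc
    exact hN _ _ _ hc hq hi
  have hHk : Hk R H := hk.sub (List.sublist_append_left _ _)
  -- the word `H ++ [q]`
  have hlen : (H ++ [x]).length ≤ (H ++ [q]).length := by simp
  have hu' : p ++ (D ++ e :: (A ++ [q])) = (p ++ (D ++ e :: A)) ++ [q] := by simp
  rw [hu'] at hH ⊢
  rcases splitLast hH with hH1 | ⟨H1, rfl, hH1⟩
  · refine ⟨H ++ [q], hH1.append (List.Sublist.refl _), ?_, hlen⟩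
    obtain ⟨G, I, hGI, hG, hI⟩ := hk
    rcases List.eq_nil_or_concat I with rfl | ⟨I0, i, rfl⟩
    · rw [List.append_nil] at hGI
      refine Hk.mk (hG.sub ?_) (by unfold AL; simp)
      rw [← hGI]
      exact List.sublist_append_left _ _
    · rw [List.concat_eq_append, ← List.append_assoc] at hGI
      obtain ⟨h1, h2⟩ := List.append_inj' hGI rfl
      have h3 : x = i := by simpa using h2
      subst h3
      rw [h1, List.append_assoc]
      refine Hk.mk hG ?_
      unfold AL at *
      rw [List.concat_eq_append, List.pairwise_append] at hI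
      rw [List.pairwise_append]
      refine ⟨hI.1, by simp, fun b hb c hc => ?_⟩
      have : c = q := by simpa using hc
      rw [this]
      exact hxq b (hI.2.2 b hb x (by simp))
  · -- `H = H1 ++ [q]`
    have hDL : DL R (H1 ++ [q]) := by
      obtain ⟨G, I, hGI, hG, hI⟩ := hk
      rcases List.eq_nil_or_concat I with rfl | ⟨I0, i, rfl⟩
      · rw [List.append_nil] at hGI
        refine hG.sub ?_
        rw [← hGI]
        exact List.sublist_append_left _ _
      · rw [List.concat_eq_append, ← List.append_assoc] at hGI
        obtain ⟨h1, h2⟩ := List.append_inj' hGI rfl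
        have h3 : x = i := by simpa using h2
        subst h3
        rcases List.eq_nil_or_concat I0 with rfl | ⟨I1, j, rfl⟩
        · rw [h1, List.append_nil]; exact hG
        · exfalso
          rw [List.concat_eq_append, ← List.append_assoc] at h1
          obtain ⟨h4, h5⟩ := List.append_inj' h1 rfl
          have h6 : q = j := by simpa using h5
          subst h6
          unfold AL at hI
          rw [List.concat_eq_append, List.pairwise_append] at hI
          exact hq (hI.2.2 q (by simp) x (by simp))
    have hH1q : ∀ g ∈ H1, ¬ R g q := by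
      unfold DL at hDL
      rw [List.pairwise_append] at hDL
      exact fun g hg => hDL.2.2 g hg q (by simp)
    have heA : ∀ g ∈ e :: A, R g q := by
      unfold AL at hA
      rw [← List.cons_append, List.pairwise_append] at hA
      exact fun g hg => hA.2.2 g hg q (by simp)
    have hH2 : H1.Sublist (p ++ D) := by
      rw [← List.append_assoc] at hH1
      obtain ⟨X, Y, rfl, hX, hY⟩ := List.sublist_append_iff.1 hH1
      have : Y = [] := by
        by_contra h0
        obtain ⟨y, hy⟩ := List.exists_mem_of_ne_nil _ h0
        exact hH1q y (by simp [hy]) (heA y (hY.subset hy))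
      subst this
      simpa using hX
    refine ⟨H1 ++ [e, q], ?_, ?_, by simp⟩
    · have : (p ++ (D ++ e :: A)) ++ [q] = (p ++ D) ++ (e :: (A ++ [q])) := by simp
      rw [this]
      refine hH2.append (List.Sublist.cons_cons _ ?_)
      exact List.sublist_append_right _ _
    · have : H1 ++ [e, q] = (H1 ++ [e]) ++ [q] := by simp
      rw [this]
      refine Hk.mk ?_ (by unfold AL; simp)
      unfold DL at *
      rw [List.pairwise_append] at hDL ⊢
      refine ⟨hDL.1, by simp, fun g hg c hc => ?_⟩
      have : c = e := by simpa using hc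
      rw [this]
      exact fun h => hH1q g hg (hR _ _ _ h (heA e (by simp)))

end Pool.Agent.H19.RWp
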