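import Mathlib

/-!
# Hook subwords

Letters with one relation `R a b` (`a` standing before `b` is an ascent); `R` and its negation are transitive.
-/

set_option autoImplicit false

namespace Pool.Agent.H19.RWp

variable {L : Type*}

/-- no ascent at all -/
def DL (R : L → L → Prop) (w : List L) : Prop := w.Pairwise (fun a b => ¬ R a b)

/-- only ascents -/
def AL (R : L → L → Prop) (w : List L) : Prop := w.Pairwise R

/-- hook words -/
def Hk (R : L → L → Prop) (w : List L) : Prop := ∃ D A, w = D ++ A ∧ DL R D ∧ AL R A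

/-- the longest hook subword of `w` is at most as long as the one of `w'` -/
def Le (R : L → L → Prop) (w w' : List L) : Prop :=
  ∀ s, s.Sublist w → Hk R s → ∃ s', s'.Sublist w' ∧ Hk R s' ∧ s.length ≤ s'.length

variable {R : L → L → Prop}

theorem Le.refl (w : List L) : Le R w w := fun s h1 h2 => ⟨s, h1, h2, le_rfl⟩

theorem Le.trans {u v w : List L} (h1 : Le R u v) (h2 : Le R v w) : Le R u w := by
  intro s hs hk
  obtain ⟨s', a, b, c⟩ := h1 s hs hk
  obtain ⟨s'', a', b', c'⟩ := h2 s' a b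
  exact ⟨s'', a', b', c.trans c'⟩

theorem DL.sub {u v : List L} (h : DL R v) (hs : u.Sublist v) : DL R u := List.Pairwise.sublist hs h

theorem AL.sub {u v : List L} (h : AL R v) (hs : u.Sublist v) : AL R u := List.Pairwise.sublist hs h

theorem Hk.mk {D A : List L} (h1 : DL R D) (h2 : AL R A) : Hk R (D ++ A) := ⟨D, A, rfl, h1, h2⟩

theorem short {e : List L} (h1 : DL R e) (h2 : AL R e) : e = [] ∨ ∃ f, e = [f] := by
  match e, h1, h2 with
  | [], _, _ => exact Or.inl rfl
  | [f], _, _ => exact Or.inr ⟨f, rfl⟩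
  | f :: g :: l, h1, h2 =>
    exact absurd ((List.pairwise_cons.1 h2).1 g (by simp)) ((List.pairwise_cons.1 h1).1 g (by simp))

/-- hook subwords of `p ++ D ++ A` -/
theorem norm (hN : ∀ a b c, ¬ R a b → ¬ R b c → ¬ R a c) {p D A s : List L} (hD : DL R D)
    (hs : s.Sublist (p ++ (D ++ A))) (hk : Hk R s) :
    (∃ G I e S, s = G ++ (I ++ (e ++ S)) ∧ (G ++ I).Sublist p ∧ e.Sublist D ∧ S.Sublist A ∧
      DL R G ∧ AL R (I ++ (e ++ S)) ∧ (e = [] ∨ ∃ f, e = [f])) ∨
    (∃ P E S, s = P ++ (E ++ S) ∧ P.Sublist p ∧ E.Sublist D ∧ S.Sublist A ∧ DL R (P ++ E)) := by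
  obtain ⟨P, t, rfl, hP, ht⟩ := List.sublist_append_iff.1 hs
  obtain ⟨E, S, rfl, hE, hS⟩ := List.sublist_append_iff.1 ht
  obtain ⟨G, I, hGI, hG, hI⟩ := hk
  rcases List.append_eq_append_iff.1 hGI.symm with ⟨I', rfl, rfl⟩ | ⟨G', rfl, hr⟩
  · left
    refine ⟨G, I', E, S, by simp, hP, hE, hS, hG, hI, short (hD.sub hE) (hI.sub ?_)⟩
    exact (List.sublist_append_left E S).trans (List.sublist_append_right _ _)
  · rcases List.append_eq_append_iff.1 hr.symm with ⟨E', rfl, rfl⟩ | ⟨G'', rfl, rfl⟩
    · by_cases h0 : G' = []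
      · left
        subst h0
        refine ⟨P, [], E', S, by simp, by simpa using hP, by simpa using hE, hS, by simpa using hG, by simpa using hI,
          short (hD.sub (by simpa using hE)) (hI.sub (List.sublist_append_left _ _))⟩
      · right
        refine ⟨P, G' ++ E', S, rfl, hP, hE, hS, ?_⟩
        obtain ⟨t, ht⟩ := List.exists_mem_of_ne_nil _ h0
        have h1 := hD.sub hE
        unfold DL at *
        rw [List.pairwise_append] at *
        refine ⟨hG.1, List.pairwise_append.2 ⟨h1.1, h1.2.1, h1.2.2⟩, fun g hg i hi => ?_⟩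
        rcases List.mem_append.1 hi with hi | hi
        · exact hG.2.2 g hg i hi
        · exact hN _ _ _ (hG.2.2 g hg t ht) (h1.2.2 t ht i hi)
    · right
      refine ⟨P, E, G'' ++ I, rfl, hP, hE, hS, hG.sub ?_⟩
      rw [← List.append_assoc]
      exact List.sublist_append_left _ _

end Pool.Agent.H19.RWp
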