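import Pool.Agent.H19.RWp.Bridge

/-!
# Row insertion: existence, uniqueness, shape, product, chains

In the definitions of `Pool.Agent.H71.RW.Defs`.
-/

set_option autoImplicit false

namespace Pool.Agent.H19.RWi

open Pool.Agent.H71.RW Pool.Agent.H19.RWp.B


variable {α : Type*} {R : α → α → Prop}

/-- existence -/
theorem ins_exists (h : Sup R) : ∀ (T : List (List α)) (x : α), (∀ u ∈ T, Hk R u) → ∃ T' r, Ins R T x T' r := by
  intro T
  induction T with
  | nil => intro x _; exact ⟨_, _, Ins.nil x⟩
  | cons u T ih =>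
    intro x hT
    by_cases hx : Hk R (u ++ [x])
    · exact ⟨_, _, Ins.grow u T x hx⟩
    · obtain ⟨y, w, hc⟩ := cr_exists h (hT u (by simp)) hx
      obtain ⟨T', r, h1⟩ := ih y (fun v hv => hT v (by simp [hv]))
      exact ⟨_, _, Ins.bump u w T T' x y r hc h1⟩

/-- uniqueness -/
theorem ins_unique {T : List (List α)} {x : α} {T1 : List (List α)} {r1 : ℕ} (h1 : Ins R T x T1 r1) :
    ∀ {T2 : List (List α)} {r2 : ℕ}, Ins R T x T2 r2 → T1 = T2 ∧ r1 = r2 := by
  induction h1 with
  | nil x => intro T2 r2 h2; cases h2; exact ⟨rfl, rfl⟩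
  | grow u T x h =>
    intro T2 r2 h2
    cases h2 with
    | grow => exact ⟨rfl, rfl⟩
    | bump u w T T' x y r hc hT => exact absurd h (cr_not_hk hc)
  | bump u w T T' x y r hc hT ih =>
    intro T2 r2 h2
    cases h2 with
    | grow _ _ _ h => exact absurd h (cr_not_hk hc)
    | bump _ w2 _ T2' _ y2 r2 hc2 hT2 =>
      obtain ⟨rfl, rfl⟩ := cr_unique hc hc2
      obtain ⟨rfl, rfl⟩ := ih hT2
      exact ⟨rfl, rfl⟩

/-- the shape -/
theorem ins_shape {T : List (List α)} {x : α} {T1 : List (List α)} {r1 : ℕ} (h1 : Ins R T x T1 r1) :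
    T1.map List.length = add (T.map List.length) r1 ∧ r1 ≤ T.length := by
  induction h1 with
  | nil x => exact ⟨rfl, le_rfl⟩
  | grow u T x h => exact ⟨by simp [add], by simp⟩
  | bump u w T T' x y r hc hT ih =>
    refine ⟨?_, by simpa using ih.2⟩
    simp [add, cr_len hc, ih.1]

/-- the product -/
theorem ins_prod {S : Type*} [Ring S] {f : α → S} (h : Sup R) (hf : Rels R f) {T : List (List α)} {x : α}
    {T1 : List (List α)} {r1 : ℕ} (h1 : Ins R T x T1 r1) : FT f T * f x = FT f T1 := by
  induction h1 with
  | nil x => simp [FT]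
  | grow u T x h => simp [FT, mul_assoc]
  | bump u w T T' x y r hc hT ih =>
    simp only [FT]
    rw [mul_assoc, cr_prod h hf hc, ← mul_assoc, ih]

theorem hk_snoc_snoc (h : Sup R) {v : List α} {y e : α} (hv : Hk R (v ++ [y])) (he : R y e) :
    Hk R ((v ++ [y]) ++ [e]) := by
  obtain ⟨D, A, h1, h2, h3⟩ := hv
  rcases List.eq_nil_or_concat A with rfl | ⟨A', z, rfl⟩
  · rw [List.append_nil] at h1
    rw [h1]
    exact ⟨D, [e], rfl, h2, by unfold AL; simp⟩
  · rw [List.concat_eq_append] at h1 h3
    rw [← List.append_assoc] at h1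
    obtain ⟨h4, h5⟩ := List.append_inj' h1 rfl
    have h6 : y = z := by simpa using h5
    subst h6
    rw [h4]
    refine ⟨D, A' ++ [y] ++ [e], by simp, h2, ?_⟩
    unfold AL at h3 ⊢
    rw [List.pairwise_append]
    refine ⟨h3, by simp, fun b hb c hc => ?_⟩
    have hce : c = e := by simpa using hc
    subst hce
    rcases List.mem_append.1 hb with hb | hb
    · rw [List.pairwise_append] at h3
      exact h.tr _ _ _ (h3.2.2 b hb y (by simp)) he
    · have : b = y := by simpa using hb
      rw [this]; exact he

/-- a new longer row would make the row above it too short -/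
theorem short_row (h : Sup R) {v w : List α} {y : α} (hv : Hk R (v ++ [y])) (hw : Hk R w)
    (hy : ¬ Hk R (y :: w)) (hb : Bd R (v ++ y :: w) w.length) (hl : v.length < w.length) :
    (v ++ [y]).length < w.length := by
  by_contra hc
  have hl2 : (v ++ [y]).length = w.length := by
    simp only [List.length_append, List.length_singleton] at hc ⊢
    omega
  obtain ⟨D, A, rfl, hD, hA⟩ := hw
  have : ∃ e ∈ D, R y e := by
    by_contra h0
    apply hy
    refine ⟨y :: D, A, rfl, ?_, hA⟩
    unfold DL at hD ⊢
    rw [List.pairwise_cons]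
    exact ⟨fun e he hr => h0 ⟨e, he, hr⟩, hD⟩
  obtain ⟨e, he, hye⟩ := this
  have h1 := hb ((v ++ [y]) ++ [e]) ?_ (hk_snoc_snoc h hv hye)
  · rw [List.length_append, hl2] at h1
    simp at h1
  · have e1 : v ++ y :: (D ++ A) = (v ++ [y]) ++ (D ++ A) := by simp
    rw [e1]
    refine List.Sublist.append (List.Sublist.refl _) ?_
    rw [List.singleton_sublist]
    simp [he]

theorem bd_cons {w : List α} {y : α} (hy : ¬ Hk R (y :: w)) : Bd R ([y] ++ w) w.length := by
  intro s hs hk
  by_contra hc
  have h1 : s.length ≤ ([y] ++ w).length := hs.length_le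
  have h2 : s = [y] ++ w := hs.eq_of_length_le (by simp at h1 hc ⊢; omega)
  exact hy (by simpa [h2] using hk)

theorem bd_snoc {v u : List α} {x : α} {k : ℕ} (hb : Bd R (v ++ u) k) : Bd R (v ++ (u ++ [x])) (k + 1) := by
  intro s hs hk
  rw [← List.append_assoc] at hs
  rcases Pool.Agent.H19.RWp.splitLast hs with h1 | ⟨s', rfl, h1⟩
  · exact (hb s h1 hk).trans (Nat.le_succ k)
  · have := hb s' h1 (hk_sub hk (List.sublist_append_left _ _))
    simpa using this

/-- the insertion of a letter into a chain is a chain -/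
theorem ins_ch (h : Sup R) {T : List (List α)} {x : α} {T1 : List (List α)} {r1 : ℕ} (h1 : Ins R T x T1 r1) :
    Ch R T → Ch R T1 := by
  induction h1 with
  | nil x =>
    intro _
    exact ⟨⟨[x], [], rfl, by unfold DL; simp, by unfold AL; simp⟩, by simp, trivial, by simp⟩
  | grow u T x hk =>
    rintro ⟨h1, h2, h3, h4⟩
    refine ⟨hk, by simp, h3, fun v hv => ⟨?_, ?_⟩⟩
    · have := (h4 v hv).1
      simp only [List.length_append, List.length_singleton]
      omega
    · have := bd_snoc (x := x) (h4 v hv).2
      simpa using this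
  | bump u w T T' x y r hc hT ih =>
    rintro ⟨h1, h2, h3, h4⟩
    have hch := ih h3
    have hlen := cr_len hc
    have hny := cr_not_hk' hc
    have hw : Hk R w := cr_hk' h hc
    refine ⟨hw, ?_, hch, ?_⟩
    · intro h0
      rw [h0] at hlen
      exact h2 (List.eq_nil_of_length_eq_zero hlen.symm)
    · cases hT with
      | nil =>
        intro v hv
        have hv' : v = [y] := by simpa using hv.symm
        subst hv'
        refine ⟨?_, bd_cons hny⟩
        obtain ⟨D1, D2, A1, A2, a, h5, h6, _⟩ := hc
        rw [h6]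
        simp
        omega
      | grow v T _ hg =>
        intro v' hv
        have hv' : v' = v ++ [y] := by simpa using hv.symm
        subst hv'
        have h5 := h4 v (by simp)
        have h6 : Bd R (v ++ y :: w) w.length := by
          rw [hlen]
          exact inv_le h hc v _ h5.2
        exact ⟨short_row h hg hw hny h6 (by rw [hlen]; exact h5.1), by simpa using h6⟩
      | bump v v1 T T' _ z r hc2 hT2 =>
        intro v' hv
        have hv' : v' = v1 := by simpa using hv.symm
        subst hv'
        have h5 := h4 v (by simp)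
        have h6 : Bd R (v ++ y :: w) w.length := by
          rw [hlen]
          exact inv_le h hc v _ h5.2
        refine ⟨?_, inv_ge' h hc2 w _ h6⟩
        rw [cr_len hc2, hlen]
        exact h5.1

end Pool.Agent.H19.RWi
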