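import Pool.Agent.H19.RWp.InsA

/-!
# Row insertion: the inverse

In the definitions of `Pool.Agent.H71.RW.Defs`.
-/

set_option autoImplicit false

namespace Pool.Agent.H19.RWi

open Pool.Agent.H71.RW Pool.Agent.H19.RWp.B

variable {α : Type*} {R : α → α → Prop}

/-- removing the last letter of a row -/
theorem drop (h : Sup R) {t v : List α} {y : α} (hv : Hk R (v ++ [y])) (hl : t.length < v.length)
    (hb : Bd R (t ++ (v ++ [y])) (v.length + 1)) : Bd R (t ++ v) v.length := by
  intro s hs hk
  by_contra hc
  have hny : ¬ Hk R (s ++ [y]) := by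
    intro hk2
    have := hb (s ++ [y]) (by
      rw [← List.append_assoc]
      exact hs.append (List.Sublist.refl _)) hk2
    simp only [List.length_append, List.length_singleton] at this
    omega
  obtain ⟨D, e, A, q, hsq, h1, h2, h3⟩ := Pool.Agent.H19.RWp.exists_pivot h.tr h.nt (R := R) hk hny
  obtain ⟨T0, V0, hTV, hT0, hV0⟩ := List.sublist_append_iff.1 hs
  rcases List.eq_nil_or_concat V0 with rfl | ⟨V1, q', rfl⟩
  · have := hT0.length_le
    rw [hTV] at hc
    simp only [List.append_nil] at hc
    omega
  · rw [List.concat_eq_append] at hTV hV0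
    have e1 : (D ++ e :: A) ++ [q] = (T0 ++ V1) ++ [q'] := by
      rw [List.append_assoc, List.append_assoc, ← hTV, hsq]
      simp
    obtain ⟨e2, e3⟩ := List.append_inj' e1 rfl
    have e4 : q = q' := by simpa using e3
    subst e4
    rcases List.eq_nil_or_concat V1 with rfl | ⟨V2, g, rfl⟩
    · have := hT0.length_le
      rw [hTV] at hc
      simp only [List.nil_append, List.length_append, List.length_singleton] at hc
      omega
    · rw [List.concat_eq_append] at e2 hV0
      have hg : g ∈ e :: A := by
        rcases List.eq_nil_or_concat (e :: A) with h0 | ⟨B, g', hB⟩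
        · simp at h0
        · rw [List.concat_eq_append] at hB
          rw [hB, ← List.append_assoc, ← List.append_assoc] at e2
          obtain ⟨_, e5⟩ := List.append_inj' e2 rfl
          have : g' = g := by simpa using e5
          rw [hB, this]; simp
      have hgq : R g q := by
        unfold Pool.Agent.H19.RWp.AL at h2
        rw [← List.cons_append, List.pairwise_append] at h2
        exact h2.2.2 g hg q (by simp)
      refine h3 (hk_three (a := g) (hk_sub hv ?_) hgq)
      have e6 : [g, q, y] = [g, q] ++ [y] := rfl
      rw [e6]
      refine List.Sublist.append (List.Sublist.trans ?_ hV0) (List.Sublist.refl _)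
      have e7 : V2 ++ [g] ++ [q] = V2 ++ [g, q] := by simp
      rw [e7]
      exact List.sublist_append_right _ _

theorem back (h : Sup R) {T : List (List α)} {y : α} {T1 : List (List α)} {r : ℕ} {w : List α}
    (hI : Ins R T y T1 r) (hb : ∀ v ∈ T1.head?, Bd R (v ++ w) w.length) :
    ¬ Hk R (y :: w) ∧ ∀ v ∈ T.head?, Bd R (v ++ y :: w) w.length := by
  have key : ∀ v : List α, Bd R (v ++ y :: w) w.length → ¬ Hk R (y :: w) := by
    intro v hv hk
    have := hv (y :: w) (List.sublist_append_right _ _) hk
    simp at this
  cases hI with
  | nil =>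
    have := hb [y] (by simp)
    exact ⟨key [] (by simpa using this), by simp⟩
  | grow v T _ hg =>
    have h1 := hb (v ++ [y]) (by simp)
    have h2 : Bd R (v ++ y :: w) w.length := by simpa using h1
    refine ⟨key v h2, fun v' hv' => ?_⟩
    have : v' = v := by simpa using hv'.symm
    rw [this]; exact h2
  | bump v v1 T T1 _ z r hc hT =>
    have h1 := hb v1 (by simp)
    have h2 : Bd R (v ++ y :: w) w.length := inv_le' h hc w _ h1
    refine ⟨key v h2, fun v' hv' => ?_⟩
    have : v' = v := by simpa using hv'.symm
    rw [this]; exact h2

/-- existence of the inverse -/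
theorem ins_inv (h : Sup R) : ∀ (r : ℕ) (T1 : List (List α)) (l : List ℕ), St l → r ≤ l.length →
    T1.map List.length = add l r → Ch R T1 → ∃ T x, Ch R T ∧ T.map List.length = l ∧ Ins R T x T1 r := by
  intro r
  induction r with
  | zero =>
    intro T1 l hl _ hs hch
    match l, hl, hs with
    | [], _, hs =>
      match T1, hs, hch with
      | [], hs, _ => simp [add] at hs
      | [w], hs, _ =>
        have hw : w.length = 1 := by simpa [add] using hs
        obtain ⟨x, rfl⟩ := List.length_eq_one_iff.1 hw
        exact ⟨[], x, trivial, rfl, Ins.nil x⟩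
      | _ :: _ :: _, hs, _ => simp [add] at hs
    | n :: l, hl, hs =>
      match T1, hs, hch with
      | [], hs, _ => simp [add] at hs
      | w :: T, hs, hch =>
        simp only [add, List.map_cons, List.cons.injEq] at hs
        obtain ⟨h1, h2, h3, h4⟩ := hch
        obtain ⟨hn, hl1, hl2⟩ := hl
        rcases List.eq_nil_or_concat w with rfl | ⟨u, x, rfl⟩
        · exact absurd rfl h2
        · simp only [List.concat_eq_append, List.length_append, List.length_singleton] at *
          have hu : u.length = n := by omega
          refine ⟨u :: T, x, ⟨hk_sub h1 (List.sublist_append_left _ _), ?_, h3, ?_⟩, ?_, Ins.grow u T x h1⟩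
          · rintro rfl
            simp at hu
            omega
          · intro v hv
            have hvl : v.length < n := by
              apply hl2
              rw [← hs.2, List.head?_map]
              exact Option.mem_map_of_mem _ hv
            refine ⟨by rw [hu]; exact hvl, drop h h1 (by rw [hu]; exact hvl) ?_⟩
            exact (h4 v hv).2
          · simp [hu, hs.2]
  | succ r ih =>
    intro T1 l hl hr hs hch
    match l, hl, hr, hs with
    | [], _, hr, _ => simp at hr
    | n :: l, hl, hr, hs =>
      match T1, hs, hch with
      | [], hs, _ => simp [add] at hs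
      | w :: T', hs, hch =>
        simp only [add, List.map_cons, List.cons.injEq] at hs
        obtain ⟨h1, h2, h3, h4⟩ := hch
        obtain ⟨hn, hl1, hl2⟩ := hl
        obtain ⟨T, y, hT1, hT2, hT3⟩ := ih T' l hl1 (by simpa using hr) hs.2 h3
        obtain ⟨h5, h6⟩ := back h hT3 (fun v hv => (h4 v hv).2)
        obtain ⟨u, x, hc⟩ := cr_exists' h h1 h5
        have hlen := cr_len hc
        refine ⟨u :: T, x, ⟨cr_hk hc, ?_, hT1, ?_⟩, ?_, Ins.bump u w T T' x y r hc hT3⟩
        · rintro rfl
          simp only [List.length_nil] at hlen
          exact h2 (List.eq_nil_of_length_eq_zero hlen)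
        · intro v hv
          have hvl : v.length < n := by
            apply hl2
            rw [← hT2, List.head?_map]
            exact Option.mem_map_of_mem _ hv
          refine ⟨by omega, ?_⟩
          have := inv_ge h hc v _ (h6 v hv)
          rwa [hlen] at this
        · simp [hT2]
          omega

/-- uniqueness of the inverse -/
theorem ins_inj' (h : Sup R) {T : List (List α)} {x : α} {T1 : List (List α)} {r1 : ℕ} (h1 : Ins R T x T1 r1) :
    ∀ {S : List (List α)} {z : α} {T2 : List (List α)} {r2 : ℕ}, Ins R S z T2 r2 → T1 = T2 → r1 = r2 →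
      (∀ u ∈ T, u ≠ []) → (∀ u ∈ S, u ≠ []) → T = S ∧ x = z := by
  induction h1 with
  | nil x =>
    intro S z T2 r2 h2 e1 e2 _ hS
    cases h2 with
    | nil => simpa using e1
    | grow u S _ hg =>
      exfalso
      simp only [List.cons.injEq] at e1
      have : u = [] := by
        have := congrArg List.length e1.1
        simp only [List.length_append, List.length_singleton] at this
        exact List.eq_nil_of_length_eq_zero (by omega)
      exact hS u (by simp) this
    | bump => simp at e2
  | grow u T x hk =>
    intro S z T2 r2 h2 e1 e2 hT hS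
    cases h2 with
    | nil =>
      exfalso
      simp only [List.cons.injEq] at e1
      have : u = [] := by
        have := congrArg List.length e1.1
        simp only [List.length_append, List.length_singleton] at this
        exact List.eq_nil_of_length_eq_zero (by omega)
      exact hT u (by simp) this
    | grow v S _ hg =>
      simp only [List.cons.injEq] at e1
      obtain ⟨h3, h4⟩ := List.append_inj' e1.1 rfl
      exact ⟨by rw [h3, e1.2], by simpa using h4⟩
    | bump => simp at e2
  | bump u w T T' x y r hc hT ih =>
    intro S z T2 r2 h2 e1 e2 hT' hS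
    cases h2 with
    | nil => simp at e2
    | grow => simp at e2
    | bump v w2 S S' _ y2 r2 hc2 hS2 =>
      simp only [List.cons.injEq] at e1
      obtain ⟨rfl, rfl⟩ := e1
      obtain ⟨rfl, rfl⟩ := ih hS2 rfl (by simpa using e2) (fun a ha => hT' a (by simp [ha]))
        (fun a ha => hS a (by simp [ha]))
      obtain ⟨rfl, rfl⟩ := cr_unique' h hc hc2
      exact ⟨rfl, rfl⟩

theorem ch_ne : ∀ {T : List (List α)}, Ch R T → ∀ u ∈ T, u ≠ [] := by
  intro T
  induction T with
  | nil => intro _ u hu; simp at hu
  | cons v T ih =>
    rintro ⟨_, h2, h3, _⟩ u hu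
    rcases List.mem_cons.1 hu with rfl | hu
    · exact h2
    · exact ih h3 u hu

theorem ch_hk : ∀ {T : List (List α)}, Ch R T → ∀ u ∈ T, Hk R u := by
  intro T
  induction T with
  | nil => intro _ u hu; simp at hu
  | cons v T ih =>
    rintro ⟨h1, _, h3, _⟩ u hu
    rcases List.mem_cons.1 hu with rfl | hu
    · exact h1
    · exact ih h3 u hu

theorem ins_inj (h : Sup R) {T S T1 : List (List α)} {x z : α} {r : ℕ} (hT : Ch R T) (hS : Ch R S)
    (h1 : Ins R T x T1 r) (h2 : Ins R S z T1 r) : T = S ∧ x = z :=
  ins_inj' h h1 h2 rfl rfl (ch_ne hT) (ch_ne hS)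

/-- the shape of a chain is a strict partition -/
theorem ch_st : ∀ {T : List (List α)}, Ch R T → St (T.map List.length) := by
  intro T
  induction T with
  | nil => intro _; trivial
  | cons v T ih =>
    rintro ⟨_, h2, h3, h4⟩
    refine ⟨List.length_pos_of_ne_nil h2, ih h3, ?_⟩
    intro m hm
    rw [List.head?_map] at hm
    obtain ⟨v', hv', rfl⟩ := Option.mem_map.1 hm
    exact (h4 v' hv').1

end Pool.Agent.H19.RWi
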