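import Pool.Agent.H19.RWp.InsB

/-!
# Insertion of a word into a chain

In the definitions of `Pool.Agent.H71.RW.Defs`.
-/

set_option autoImplicit false

namespace Pool.Agent.H19.RWi

open Pool.Agent.H71.RW Pool.Agent.H19.RWp.B

variable {α : Type*} {R : α → α → Prop}

/-- insertion of the letters of a word, the first letter first; the list of the rows which grow -/
inductive InsL (R : α → α → Prop) : List (List α) → List α → List (List α) → List ℕ → Prop
  | nil (T : List (List α)) : InsL R T [] T []
  | cons (T T1 T2 : List (List α)) (x : α) (w : List α) (r : ℕ) (ρ : List ℕ) (h1 : Ins R T x T1 r)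
      (h2 : InsL R T1 w T2 ρ) : InsL R T (x :: w) T2 (r :: ρ)

theorem insL_exists (h : Sup R) : ∀ (w : List α) (T : List (List α)), Ch R T → ∃ T2 ρ, InsL R T w T2 ρ := by
  intro w
  induction w with
  | nil => intro T _; exact ⟨_, _, InsL.nil T⟩
  | cons x w ih =>
    intro T hT
    obtain ⟨T1, r, h1⟩ := ins_exists h T x (ch_hk hT)
    obtain ⟨T2, ρ, h2⟩ := ih T1 (ins_ch h h1 hT)
    exact ⟨_, _, InsL.cons T T1 T2 x w r ρ h1 h2⟩

theorem insL_unique {T : List (List α)} {w : List α} {T2 : List (List α)} {ρ : List ℕ} (h1 : InsL R T w T2 ρ) :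
    ∀ {T2' : List (List α)} {ρ' : List ℕ}, InsL R T w T2' ρ' → T2 = T2' ∧ ρ = ρ' := by
  induction h1 with
  | nil T => intro T2' ρ' h2; cases h2; exact ⟨rfl, rfl⟩
  | cons T T1 T2 x w r ρ h1 h2 ih =>
    intro T2' ρ' h3
    cases h3 with
    | cons _ T1' _ _ _ r' ρ' h4 h5 =>
      obtain ⟨rfl, rfl⟩ := ins_unique h1 h4
      obtain ⟨rfl, rfl⟩ := ih h5
      exact ⟨rfl, rfl⟩

theorem insL_length {T : List (List α)} {w : List α} {T2 : List (List α)} {ρ : List ℕ} (h1 : InsL R T w T2 ρ) :
    ρ.length = w.length := by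
  induction h1 with
  | nil T => rfl
  | cons T T1 T2 x w r ρ h1 h2 ih => simp [ih]

theorem insL_shape {T : List (List α)} {w : List α} {T2 : List (List α)} {ρ : List ℕ} (h1 : InsL R T w T2 ρ) :
    T2.map List.length = addL (T.map List.length) ρ := by
  induction h1 with
  | nil T => rfl
  | cons T T1 T2 x w r ρ h1 h2 ih => rw [ih, (ins_shape h1).1]; rfl

theorem insL_ch (h : Sup R) {T : List (List α)} {w : List α} {T2 : List (List α)} {ρ : List ℕ}
    (h1 : InsL R T w T2 ρ) : Ch R T → Ch R T2 := by
  induction h1 with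
  | nil T => exact id
  | cons T T1 T2 x w r ρ h1 h2 ih => exact fun h3 => ih (ins_ch h h1 h3)

theorem insL_adm (h : Sup R) {T : List (List α)} {w : List α} {T2 : List (List α)} {ρ : List ℕ}
    (h1 : InsL R T w T2 ρ) : Ch R T → Adm (T.map List.length) ρ := by
  induction h1 with
  | nil T => exact fun _ => trivial
  | cons T T1 T2 x w r ρ h1 h2 ih =>
    intro h3
    have h4 := ins_ch h h1 h3
    have h5 := ih h4
    rw [(ins_shape h1).1] at h5
    refine ⟨?_, h5⟩
    rw [← (ins_shape h1).1]
    exact ch_st h4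

theorem insL_prod {S : Type*} [Ring S] {f : α → S} (h : Sup R) (hf : Rels R f) {T : List (List α)} {w : List α}
    {T2 : List (List α)} {ρ : List ℕ} (h1 : InsL R T w T2 ρ) : FT f T * (w.map f).prod = FT f T2 := by
  induction h1 with
  | nil T => simp
  | cons T T1 T2 x w r ρ h1 h2 ih =>
    rw [List.map_cons, List.prod_cons, ← mul_assoc, ins_prod h hf h1, ih]

theorem add_le : ∀ {l : List ℕ} {r : ℕ}, St (add l r) → r ≤ l.length := by
  intro l
  induction l with
  | nil =>
    intro r hr
    cases r with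
    | zero => simp
    | succ r =>
      simp only [add, St] at hr
      exact absurd hr.1 (lt_irrefl 0)
  | cons n l ih =>
    intro r hr
    cases r with
    | zero => simp
    | succ r =>
      simp only [add, St] at hr
      have := ih hr.2.1
      simpa using this

theorem add_len : ∀ {l : List ℕ} {r : ℕ}, r ≤ l.length → (add l r).length ≤ l.length + 1 := by
  intro l
  induction l with
  | nil =>
    intro r hr
    have : r = 0 := by simpa using hr
    subst this
    simp [add]
  | cons n l ih =>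
    intro r hr
    cases r with
    | zero => simp [add]
    | succ r =>
      have := ih (r := r) (by simpa using hr)
      simp only [add, List.length_cons]
      omega

theorem adm_lt : ∀ {ρ l : List ℕ}, Adm l ρ → ∀ r ∈ ρ, r < l.length + ρ.length := by
  intro ρ
  induction ρ with
  | nil => intro l _ r hr; simp at hr
  | cons s ρ ih =>
    rintro l ⟨h1, h2⟩ r hr
    have h3 := add_le h1
    have h4 := add_len h3
    rcases List.mem_cons.1 hr with rfl | hr
    · simp only [List.length_cons]
      omega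
    · have := ih h2 r hr
      simp only [List.length_cons]
      omega

theorem insL_inv (h : Sup R) : ∀ (ρ : List ℕ) (T2 : List (List α)) (l : List ℕ), St l → Adm l ρ →
    T2.map List.length = addL l ρ → Ch R T2 → ∃ T w, Ch R T ∧ T.map List.length = l ∧ InsL R T w T2 ρ := by
  intro ρ
  induction ρ with
  | nil => intro T2 l _ _ hs hch; exact ⟨T2, [], hch, hs, InsL.nil T2⟩
  | cons r ρ ih =>
    rintro T2 l hl ⟨h1, h2⟩ hs hch
    obtain ⟨T1, w, h3, h4, h5⟩ := ih T2 (add l r) h1 h2 hs hch
    obtain ⟨T, x, h6, h7, h8⟩ := ins_inv h r T1 l hl (add_le h1) h4 h3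
    exact ⟨T, x :: w, h6, h7, InsL.cons T T1 T2 x w r ρ h8 h5⟩

theorem insL_inj (h : Sup R) {T : List (List α)} {w : List α} {T2 : List (List α)} {ρ : List ℕ}
    (h1 : InsL R T w T2 ρ) : ∀ {T' : List (List α)} {w' : List α}, InsL R T' w' T2 ρ → Ch R T → Ch R T' →
    T = T' ∧ w = w' := by
  induction h1 with
  | nil T =>
    intro T' w' h2 _ _
    cases h2
    exact ⟨rfl, rfl⟩
  | cons T T1 T2 x w r ρ h1 h2 ih =>
    intro T' w' h3 hT hT'
    cases h3 with
    | cons _ T1' _ x' w' _ _ h4 h5 =>
      obtain ⟨rfl, rfl⟩ := ih h5 (ins_ch h h1 hT) (ins_ch h h4 hT')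
      obtain ⟨rfl, rfl⟩ := ins_inj h hT hT' h1 h4
      exact ⟨rfl, rfl⟩

end Pool.Agent.H19.RWi
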