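import Pool.Agent.H19.RWp.InsL

/-!
# The Pieri rule of the sums over chains, from the peak rule

In the definitions of `Pool.Agent.H71.RW.Defs`.
-/

set_option autoImplicit false

open Finset

namespace Pool.Agent.H19.RWi

open Pool.Agent.H71.RW Pool.Agent.H19.RWp.B

theorem mem_listsOver {β : Type*} {S : Finset β} : ∀ {k : ℕ} {w : List β},
    w ∈ listsOver S k ↔ w.length = k ∧ ∀ a ∈ w, a ∈ S := by
  classical
  intro k
  induction k with
  | zero =>
    intro w
    simp only [listsOver, mem_singleton]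
    constructor
    · rintro rfl; simp
    · rintro ⟨h, _⟩; exact List.eq_nil_of_length_eq_zero h
  | succ k ih =>
    intro w
    simp only [listsOver, mem_image, mem_product, Prod.exists]
    constructor
    · rintro ⟨a, b, ⟨h1, h2⟩, rfl⟩
      rw [ih] at h2
      refine ⟨by simp [h2.1], ?_⟩
      intro c hc
      rcases List.mem_cons.1 hc with rfl | hc
      · exact h1
      · exact h2.2 c hc
    · rintro ⟨h1, h2⟩
      match w, h1, h2 with
      | a :: b, h1, h2 =>
        exact ⟨a, b, ⟨h2 a (by simp), ih.2 ⟨by simpa using h1, fun c hc => h2 c (by simp [hc])⟩⟩, rfl⟩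

section

variable {α : Type*} [Fintype α] {R : α → α → Prop}

theorem mem_shp : ∀ {l : List ℕ} {T : List (List α)}, T ∈ shp l ↔ T.map List.length = l := by
  classical
  intro l
  induction l with
  | nil => intro T; simp [shp]
  | cons n l ih =>
    intro T
    simp only [shp, mem_image, mem_product, Prod.exists]
    constructor
    · rintro ⟨a, b, ⟨h1, h2⟩, rfl⟩
      rw [ih] at h2
      rw [mem_listsOver] at h1
      simp [h1.1, h2]
    · intro h1
      match T, h1 with
      | a :: b, h1 =>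
        simp only [List.map_cons, List.cons.injEq] at h1
        exact ⟨a, b, ⟨mem_listsOver.2 ⟨h1.1, fun c _ => mem_univ c⟩, ih.2 h1.2⟩, rfl⟩

theorem mem_SS {l : List ℕ} {T : List (List α)} : T ∈ SS R l ↔ T.map List.length = l ∧ Ch R T := by
  classical
  unfold SS
  rw [mem_filter, mem_shp]

theorem mem_HW {n : ℕ} {w : List α} : w ∈ HW R n ↔ w.length = n ∧ Hk R w := by
  classical
  unfold HW
  rw [mem_filter, mem_listsOver]
  simp

theorem mem_HP {l : List ℕ} {k : ℕ} {ρ : List ℕ} : ρ ∈ HP l k ↔ ρ.length = k ∧ Hk Rp ρ ∧ Adm l ρ := by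
  classical
  unfold HP
  rw [mem_filter, mem_listsOver]
  constructor
  · rintro ⟨⟨h1, _⟩, h2, h3⟩
    exact ⟨h1, h2, h3⟩
  · rintro ⟨h1, h2, h3⟩
    refine ⟨⟨h1, fun r hr => ?_⟩, h2, h3⟩
    rw [mem_range, ← h1]
    exact adm_lt h3 r hr

variable {S : Type*} [Ring S]

theorem MM_nil (f : α → S) : MM R f [] = 1 := by
  classical
  unfold MM
  have : SS R [] = {([] : List (List α))} := by
    ext T
    rw [mem_SS, mem_singleton]
    constructor
    · rintro ⟨h, _⟩; simpa using h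
    · rintro rfl; exact ⟨rfl, trivial⟩
  rw [this, sum_singleton]
  rfl

/-- one row -/
theorem MM_one (f : α → S) {k : ℕ} (hk : 1 ≤ k) : MM R f [k] = ∑ w ∈ HW R k, (w.map f).prod := by
  classical
  unfold MM
  symm
  refine sum_bij (fun w _ => [w]) ?_ ?_ ?_ ?_
  · intro w hw
    rw [mem_HW] at hw
    rw [mem_SS]
    refine ⟨by simp [hw.1], hw.2, ?_, trivial, by simp⟩
    rintro rfl
    simp at hw
    omega
  · intro a _ b _ h
    simpa using h
  · intro T hT
    rw [mem_SS] at hT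
    match T, hT with
    | [w], hT => exact ⟨w, mem_HW.2 ⟨by simpa using hT.1, hT.2.1⟩, rfl⟩
    | [], hT => simp at hT
    | _ :: _ :: _, hT => simp at hT
  · intro w _
    simp [FT]

/-- the Pieri rule, from the peak rule -/
theorem pie_of_peak (h : Sup R) {f : α → S} (hf : Rels R f)
    (PK : ∀ (T T2 : List (List α)) (w : List α) (ρ : List ℕ), Ch R T → InsL R T w T2 ρ → (Hk R w ↔ Hk Rp ρ)) :
    Pie (MM R f) := by
  classical
  refine ⟨MM_nil f, fun l hl k hk => ?_⟩
  rw [MM_one f hk]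
  have e1 : MM R f l * ∑ w ∈ HW R k, (w.map f).prod = ∑ p ∈ SS R l ×ˢ HW R k, FT f p.1 * (p.2.map f).prod := by
    rw [MM, sum_mul_sum, sum_product]
  have e2 : ∑ ρ ∈ HP l k, MM R f (addL l ρ) = ∑ p ∈ (HP l k).sigma (fun ρ => SS R (addL l ρ)), FT f p.2 := by
    rw [sum_sigma]
    rfl
  rw [e1, e2]
  have key : ∀ p : List (List α) × List α, p ∈ SS R l ×ˢ HW R k → ∃ T2 ρ, InsL R p.1 p.2 T2 ρ := by
    intro p hp
    rw [mem_product, mem_SS] at hp
    exact insL_exists h p.2 p.1 hp.1.2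
  choose! F G hFG using key
  refine sum_bij (fun p _ => (⟨G p, F p⟩ : Σ _ : List ℕ, List (List α))) ?_ ?_ ?_ ?_
  · intro p hp
    have h1 := hFG p hp
    rw [mem_product, mem_SS, mem_HW] at hp
    rw [mem_sigma, mem_HP, mem_SS]
    refine ⟨⟨by rw [insL_length h1]; exact hp.2.1, (PK _ _ _ _ hp.1.2 h1).1 hp.2.2, ?_⟩, ?_, ?_⟩
    · have := insL_adm h h1 hp.1.2
      rwa [hp.1.1] at this
    · have := insL_shape h1
      rwa [hp.1.1] at this
    · exact insL_ch h h1 hp.1.2
  · intro p hp q hq hpq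
    have h1 := hFG p hp
    have h2 := hFG q hq
    simp only [Sigma.mk.injEq, heq_eq_eq] at hpq
    rw [mem_product, mem_SS] at hp hq
    rw [← hpq.1, ← hpq.2] at h2
    obtain ⟨h3, h4⟩ := insL_inj h h1 h2 hp.1.2 hq.1.2
    exact Prod.ext h3 h4
  · rintro ⟨ρ, T2⟩ hp
    rw [mem_sigma, mem_HP, mem_SS] at hp
    obtain ⟨⟨h1, h2, h3⟩, h4, h5⟩ := hp
    obtain ⟨T, w, h6, h7, h8⟩ := insL_inv h ρ T2 l hl h3 h4 h5
    have hp : (T, w) ∈ SS R l ×ˢ HW R k := by
      rw [mem_product, mem_SS, mem_HW]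
      exact ⟨⟨h7, h6⟩, by rw [← insL_length h8]; exact h1, (PK _ _ _ _ h6 h8).2 h2⟩
    refine ⟨(T, w), hp, ?_⟩
    obtain ⟨h9, h10⟩ := insL_unique (hFG _ hp) h8
    simp only [h9, h10]
  · intro p hp
    exact insL_prod h hf (hFG p hp)

end

end Pool.Agent.H19.RWi
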