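import Pool.Agent.H19.RWp.Exist

/-!
# Reversal, and uniqueness of the crossing
-/

set_option autoImplicit false

namespace Pool.Agent.H19.RWp

variable {L : Type*}

/-- the reversed relation -/
def Rv (R : L → L → Prop) : L → L → Prop := fun a b => ¬ R b a

variable {R : L → L → Prop}

theorem Rv_Rv (R : L → L → Prop) : Rv (Rv R) = R := by
  funext a b
  simp [Rv]

theorem Rv.hR (hN : ∀ a b c, ¬ R a b → ¬ R b c → ¬ R a c) : ∀ a b c, Rv R a b → Rv R b c → Rv R a c :=
  fun _ _ _ h1 h2 => hN _ _ _ h2 h1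

theorem Rv.hN (hR : ∀ a b c, R a b → R b c → R a c) : ∀ a b c, ¬ Rv R a b → ¬ Rv R b c → ¬ Rv R a c := by
  intro a b c h1 h2 h3
  simp only [Rv, not_not] at h1 h2 h3
  exact h3 (hR _ _ _ h2 h1)

theorem AL.rev {w : List L} (h : AL R w) : DL (Rv R) w.reverse := by
  unfold DL AL Rv at *
  rw [List.pairwise_reverse]
  simpa using h

theorem DL.rev {w : List L} (h : DL R w) : AL (Rv R) w.reverse := by
  unfold DL AL Rv at *
  rw [List.pairwise_reverse]
  exact h

theorem Hk.rev {w : List L} (h : Hk R w) : Hk (Rv R) w.reverse := by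
  obtain ⟨D, A, rfl, hD, hA⟩ := h
  rw [List.reverse_append]
  exact Hk.mk hA.rev hD.rev

theorem Hk.rev' {w : List L} (h : Hk (Rv R) w) : Hk R w.reverse := by
  have := h.rev
  rwa [Rv_Rv] at this

theorem Le.rev {w w' : List L} (h : Le R w w') : Le (Rv R) w.reverse w'.reverse := by
  intro s hs hk
  obtain ⟨s', h1, h2, h3⟩ := h s.reverse (by simpa using hs.reverse) hk.rev'
  exact ⟨s'.reverse, h1.reverse, h2.rev, by simpa using h3⟩

theorem Le.rev' {w w' : List L} (h : Le (Rv R) w w') : Le R w.reverse w'.reverse := by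
  have := h.rev
  rwa [Rv_Rv] at this

theorem XD.rev (hR : ∀ a b c, R a b → R b c → R a c) (hN : ∀ a b c, ¬ R a b → ¬ R b c → ¬ R a c)
    {D1 D2 A1 A2 : List L} {d a x : L} (h : XD R D1 d D2 A1 a A2 x) :
    XD (Rv R) A2.reverse x A1.reverse D2.reverse a D1.reverse d := by
  refine ⟨?_, ?_, ?_, ?_, ?_, ?_⟩
  · have := (h.hA' hN).rev
    simpa using this
  · have := (h.hD' hR).rev
    simpa using this
  · intro e he
    simp only [Rv, not_not]
    exact h.aA2 e (by simpa using he)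
  · exact h.h4
  · intro e he
    exact h.dD2 e (by simpa using he)
  · simp only [Rv, not_not]
    exact h.h2

/-- the crossing `u x = y u'` -/
def Cross (R : L → L → Prop) (u : List L) (x y : L) (u' : List L) : Prop :=
  ∃ D1 D2 A1 a A2, u = (D1 ++ y :: D2) ++ (A1 ++ a :: A2) ∧ u' = (D1 ++ a :: D2) ++ (A1 ++ x :: A2) ∧
    XD R D1 y D2 A1 a A2 x

theorem Cross.rev (hR : ∀ a b c, R a b → R b c → R a c) (hN : ∀ a b c, ¬ R a b → ¬ R b c → ¬ R a c)
    {u u' : List L} {x y : L} (h : Cross R u x y u') : Cross (Rv R) u'.reverse y x u.reverse := by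
  obtain ⟨D1, D2, A1, a, A2, rfl, rfl, h⟩ := h
  exact ⟨_, _, _, _, _, by simp, by simp, h.rev hR hN⟩

theorem Cross.rev' (hR : ∀ a b c, R a b → R b c → R a c) (hN : ∀ a b c, ¬ R a b → ¬ R b c → ¬ R a c)
    {u u' : List L} {x y : L} (h : Cross (Rv R) u x y u') : Cross R u'.reverse y x u.reverse := by
  have := h.rev (Rv.hR hN) (Rv.hN hR)
  rwa [Rv_Rv] at this

theorem exists_Cross (hR : ∀ a b c, R a b → R b c → R a c) {u : List L} {x : L}
    (hu : Hk R u) (hx : ¬ Hk R (u ++ [x])) : ∃ y u', Cross R u x y u' := by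
  obtain ⟨D1, d, D2, A1, a, A2, rfl, h⟩ := exists_XD hR hu hx
  exact ⟨d, _, D1, D2, A1, a, A2, rfl, rfl, h⟩

theorem exists_Cross' (hR : ∀ a b c, R a b → R b c → R a c) (hN : ∀ a b c, ¬ R a b → ¬ R b c → ¬ R a c)
    {u' : List L} {y : L} (hu : Hk R u') (hx : ¬ Hk R (y :: u')) : ∃ u x, Cross R u x y u' := by
  obtain ⟨x, u, h⟩ := exists_Cross (Rv.hR hN) (x := y) hu.rev (fun h => hx (by simpa using h.rev'))
  have := h.rev' hR hN
  rw [List.reverse_reverse] at this
  exact ⟨_, _, this⟩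

namespace Cross

variable {u u' : List L} {x y : L}

theorem hk (h : Cross R u x y u') : Hk R u := by
  obtain ⟨D1, D2, A1, a, A2, rfl, rfl, h⟩ := h
  exact Hk.mk h.hD h.hA

theorem hk' (hR : ∀ a b c, R a b → R b c → R a c) (hN : ∀ a b c, ¬ R a b → ¬ R b c → ¬ R a c)
    (h : Cross R u x y u') : Hk R u' := by
  obtain ⟨D1, D2, A1, a, A2, rfl, rfl, h⟩ := h
  exact Hk.mk (h.hD' hR) (h.hA' hN)

theorem len (h : Cross R u x y u') : u'.length = u.length := by
  obtain ⟨D1, D2, A1, a, A2, rfl, rfl, h⟩ := h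
  simp

theorem not_hk (h : Cross R u x y u') : ¬ Hk R (u ++ [x]) := by
  obtain ⟨D1, D2, A1, a, A2, rfl, rfl, h⟩ := h
  intro hk
  refine h.h4 (Hk.three (a := y) (hk.sub ?_) h.h2)
  have e : [y, a, x] = ([y] ++ [a]) ++ [x] := rfl
  rw [e]
  refine List.Sublist.append (List.Sublist.append ?_ ?_) (List.Sublist.refl _)
  · rw [List.singleton_sublist]; simp
  · rw [List.singleton_sublist]; simp

theorem not_hk' (h : Cross R u x y u') : ¬ Hk R (y :: u') := by
  obtain ⟨D1, D2, A1, a, A2, rfl, rfl, h⟩ := h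
  intro hk
  refine h.h4 (Hk.three (a := y) (hk.sub ?_) h.h2)
  refine List.Sublist.cons_cons y ?_
  have e : [a, x] = [a] ++ [x] := rfl
  rw [e]
  exact List.Sublist.append (by rw [List.singleton_sublist]; simp) (by rw [List.singleton_sublist]; simp)

theorem inv1 (hR : ∀ a b c, R a b → R b c → R a c) (hN : ∀ a b c, ¬ R a b → ¬ R b c → ¬ R a c)
    (h : Cross R u x y u') (p : List L) : Le R (p ++ u) (p ++ y :: u') := by
  obtain ⟨D1, D2, A1, a, A2, rfl, rfl, h⟩ := h
  exact RWp.inv1 hR hN h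

theorem inv2 (hR : ∀ a b c, R a b → R b c → R a c) (hN : ∀ a b c, ¬ R a b → ¬ R b c → ¬ R a c)
    (h : Cross R u x y u') (p : List L) : Le R (p ++ y :: u') (p ++ u) := by
  obtain ⟨D1, D2, A1, a, A2, rfl, rfl, h⟩ := h
  exact RWp.inv2 hR hN h

theorem inv3 (hR : ∀ a b c, R a b → R b c → R a c) (hN : ∀ a b c, ¬ R a b → ¬ R b c → ¬ R a c)
    (h : Cross R u x y u') (s : List L) : Le R (u' ++ s) (u ++ x :: s) := by
  have := ((h.rev hR hN).inv1 (Rv.hR hN) (Rv.hN hR) s.reverse).rev'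
  simpa using this

theorem inv4 (hR : ∀ a b c, R a b → R b c → R a c) (hN : ∀ a b c, ¬ R a b → ¬ R b c → ¬ R a c)
    (h : Cross R u x y u') (s : List L) : Le R (u ++ x :: s) (u' ++ s) := by
  have := ((h.rev hR hN).inv2 (Rv.hR hN) (Rv.hN hR) s.reverse).rev'
  simpa using this

end Cross

/-- Lemma ii' -/
theorem lemii' (hR : ∀ a b c, R a b → R b c → R a c) (hN : ∀ a b c, ¬ R a b → ¬ R b c → ¬ R a c)
    {s v : List L} {z : L} (hv : Hk R v) (hz : ¬ Hk R (z :: v)) : Le R (z :: (v ++ s)) (v ++ s) := by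
  have := (lemii (Rv.hR hN) (Rv.hN hR) (p := s.reverse) (x := z) hv.rev (fun h => hz (by simpa using h.rev'))).rev'
  simpa using this

/-- the first letter with a property -/
theorem first_unique {P : L → Prop} : ∀ {D E M N : List L} {d e : L}, D ++ d :: M = E ++ e :: N →
    (∀ f ∈ D, ¬ P f) → P d → (∀ f ∈ E, ¬ P f) → P e → D = E ∧ d = e ∧ M = N := by
  intro D
  induction D with
  | nil =>
    intro E M N d e h h1 h2 h3 h4
    rcases E with _ | ⟨g, E⟩
    · simpa using h
    · simp only [List.nil_append, List.cons_append, List.cons.injEq] at h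
      exact absurd (h.1 ▸ h2) (h3 g (by simp))
  | cons c D ih =>
    intro E M N d e h h1 h2 h3 h4
    rcases E with _ | ⟨g, E⟩
    · simp only [List.nil_append, List.cons_append, List.cons.injEq] at h
      exact absurd (h.1 ▸ h4) (h1 c (by simp))
    · simp only [List.cons_append, List.cons.injEq] at h
      obtain ⟨rfl, h⟩ := h
      obtain ⟨rfl, h5, h6⟩ := ih h (fun f hf => h1 f (by simp [hf])) h2 (fun f hf => h3 f (by simp [hf])) h4
      exact ⟨rfl, h5, h6⟩

theorem XD.prefix_hk {D1 D2 A1 A2 : List L} {d a x : L} (h : XD R D1 d D2 A1 a A2 x) :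
    Hk R ((D1 ++ d :: D2) ++ A1 ++ [x]) := by
  rw [List.append_assoc]
  refine Hk.mk h.hD ?_
  have := h.hA
  unfold AL at this ⊢
  rw [List.pairwise_append] at this ⊢
  refine ⟨this.1, by simp, fun b hb c hc => ?_⟩
  have : c = x := by simpa using hc
  rw [this]; exact h.h3 b hb

theorem XD.prefix_not {D1 D2 A1 A2 : List L} {d a x : L} (h : XD R D1 d D2 A1 a A2 x) (T : List L) :
    ¬ Hk R ((D1 ++ d :: D2) ++ A1 ++ (a :: T) ++ [x]) := by
  intro hk
  refine h.h4 (Hk.three (a := d) (hk.sub ?_) h.h2)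
  have e : [d, a, x] = [d] ++ [a] ++ [x] := rfl
  rw [e]
  refine List.Sublist.append (List.Sublist.append ?_ ?_) (List.Sublist.refl _)
  · rw [List.singleton_sublist]; simp
  · rw [List.singleton_sublist]; simp

theorem Cross.unique {u u' w : List L} {x y z : L} (h1 : Cross R u x y u') (h2 : Cross R u x z w) :
    y = z ∧ u' = w := by
  obtain ⟨D1, D2, A1, a, A2, rfl, rfl, h⟩ := h1
  obtain ⟨E1, E2, B1, b, B2, h0, rfl, h'⟩ := h2
  rw [← List.append_assoc, ← List.append_assoc] at h0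
  have key : (D1 ++ y :: D2) ++ A1 = (E1 ++ z :: E2) ++ B1 ∧ a = b ∧ A2 = B2 := by
    rcases List.append_eq_append_iff.1 h0 with ⟨T, h3, h4⟩ | ⟨T, h3, h4⟩
    · rcases T with _ | ⟨t, T⟩
      · simp only [List.nil_append, List.cons.injEq] at h4
        exact ⟨by simpa using h3.symm, h4.1, h4.2⟩
      · exfalso
        simp only [List.cons_append, List.cons.injEq] at h4
        have := h'.prefix_hk
        rw [h3, ← h4.1] at this
        exact h.prefix_not T this
    · rcases T with _ | ⟨t, T⟩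
      · simp only [List.nil_append, List.cons.injEq] at h4
        exact ⟨by simpa using h3, h4.1.symm, h4.2.symm⟩
      · exfalso
        simp only [List.cons_append, List.cons.injEq] at h4
        have := h.prefix_hk
        rw [h3, ← h4.1] at this
        exact h'.prefix_not T this
  obtain ⟨h3, rfl, rfl⟩ := key
  rw [List.append_assoc, List.append_assoc, List.cons_append, List.cons_append] at h3
  obtain ⟨rfl, rfl, h4⟩ := first_unique (P := fun f => R f a) h3 h.h1 h.h2 h'.h1 h'.h2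
  refine ⟨rfl, ?_⟩
  have e1 : ∀ X Y : List L, (D1 ++ a :: X) ++ (Y ++ x :: A2) = D1 ++ a :: ((X ++ Y) ++ x :: A2) := by
    intro X Y; simp
  rw [e1, e1, h4]

theorem Cross.unique' (hR : ∀ a b c, R a b → R b c → R a c) (hN : ∀ a b c, ¬ R a b → ¬ R b c → ¬ R a c)
    {u u' w : List L} {x y z : L} (h1 : Cross R u x y u') (h2 : Cross R w z y u') : u = w ∧ x = z := by
  obtain ⟨h3, h4⟩ := (h1.rev hR hN).unique (h2.rev hR hN)
  exact ⟨List.reverse_injective h4, h3⟩

end Pool.Agent.H19.RWp
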