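import Pool.Agent.H19.RWp.Rev

/-!
# The crossing is an identity of products
-/

set_option autoImplicit false

namespace Pool.Agent.H19.RWp

variable {L : Type*} {R : L → L → Prop} {M : Type*} [MonoidWithZero M]

/-- the letters as elements of a monoid with zero, `X` the creation letters (at most one) -/
structure Ks (R : L → L → Prop) (f : L → M) (X : L → Prop) : Prop where
  K1 : ∀ a b c, ¬ R a b → R a c → f a * f b * f c = f a * f c * f b
  K2 : ∀ a b c, R a c → ¬ R b c → ¬ (X a ∧ a = c) → f a * f b * f c = f b * f a * f c
  o1 : ∀ o, X o → ∀ b, R o b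
  o2 : ∀ o, X o → ∀ b, R b o → b = o
  o3 : ∀ o, X o → f o * f o = 0

variable {f : L → M} {X : L → Prop}

theorem lemA (hK : Ks R f X) (hR : ∀ a b c, R a b → R b c → R a c) {x : L} : ∀ (A : List L) (a : L), AL R (a :: A) →
    ¬ R a x → ((a :: A).map f).prod * f x = f a * f x * (A.map f).prod := by
  intro A
  induction A with
  | nil => intro a _ _; simp
  | cons b A ih =>
    intro a hA ha
    have hab : R a b := by
      unfold AL at hA
      rw [List.pairwise_cons] at hA
      exact hA.1 b (by simp)
    have hbx : ¬ R b x := fun h => ha (hR _ _ _ hab h)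
    have h1 := ih b (hA.sub (List.sublist_cons_self _ _)) hbx
    have h2 := hK.K1 a x b ha hab
    rw [List.map_cons, List.prod_cons, mul_assoc, h1, List.map_cons, List.prod_cons]
    simp only [← mul_assoc]
    rw [← h2]

theorem lemB (hK : Ks R f X) (hR : ∀ a b c, R a b → R b c → R a c) {a : L} : ∀ (A : List L) (x : L), AL R (A ++ [x]) →
    ¬ R a x → (¬ ∃ o r, X o ∧ A ++ [x] = o :: o :: r) → (A.map f).prod * f a * f x = f a * (A.map f).prod * f x := by
  intro A
  induction A using List.reverseRecOn with
  | nil => intro x _ _ _; simp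
  | append_singleton B b ih =>
    intro x hA ha hne
    have hbx : R b x := by
      unfold AL at hA
      rw [List.pairwise_append] at hA
      exact hA.2.2 b (by simp) x (by simp)
    have hab : ¬ R a b := fun h => ha (hR _ _ _ h hbx)
    have hB : AL R (B ++ [b]) := hA.sub (List.sublist_append_left _ _)
    have h1 := ih b hB hab (by
      rintro ⟨o, r, hXo, hr⟩
      exact hne ⟨o, r ++ [x], hXo, by rw [hr]; simp⟩)
    have h2 := hK.K2 b a x hbx ha (by
      rintro ⟨hbo, hxo⟩
      apply hne
      rcases B with _ | ⟨c, B⟩
      · exact ⟨b, [], hbo, by rw [← hxo]; rfl⟩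
      · have hc : c = b := by
          apply hK.o2 b hbo
          unfold AL at hB
          rw [List.pairwise_append] at hB
          exact hB.2.2 c (by simp) b (by simp)
        rcases B with _ | ⟨c', B⟩
        · exact ⟨b, [x], hbo, by rw [hc]; rfl⟩
        · have hc' : c' = b := by
            apply hK.o2 b hbo
            unfold AL at hB
            rw [List.pairwise_append] at hB
            exact hB.2.2 c' (by simp) b (by simp)
          exact ⟨b, B ++ [b] ++ [x], hbo, by rw [hc, hc']; simp⟩)
    rw [List.map_append, List.prod_append, List.map_singleton, List.prod_singleton]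
    calc (B.map f).prod * f b * f a * f x = (B.map f).prod * (f b * f a * f x) := by simp only [mul_assoc]
      _ = (B.map f).prod * f a * f b * f x := by rw [h2]; simp only [mul_assoc]
      _ = f a * (B.map f).prod * f b * f x := by rw [h1]
      _ = f a * ((B.map f).prod * f b) * f x := by simp only [mul_assoc]

theorem lemC (hK : Ks R f X) (hN : ∀ a b c, ¬ R a b → ¬ R b c → ¬ R a c) {a : L} : ∀ (D : List L) (d : L), DL R (d :: D) →
    R d a → ((d :: D).map f).prod * f a = f d * f a * (D.map f).prod := by
  intro D
  induction D with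
  | nil => intro d _ _; simp
  | cons e D ih =>
    intro d hD hd
    have hde : ¬ R d e := by
      unfold DL at hD
      rw [List.pairwise_cons] at hD
      exact hD.1 e (by simp)
    have hea : R e a := by
      by_contra hc
      exact hN _ _ _ hde hc hd
    have h1 := ih e (hD.sub (List.sublist_cons_self _ _)) hea
    have h2 := hK.K1 d e a hde hd
    rw [List.map_cons, List.prod_cons, mul_assoc, h1, List.map_cons, List.prod_cons]
    simp only [← mul_assoc]
    rw [h2]

theorem lemD (hK : Ks R f X) (hN : ∀ a b c, ¬ R a b → ¬ R b c → ¬ R a c) {d : L} : ∀ (D : List L) (a : L), ¬ X a →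
    DL R D → (∀ e ∈ D, ¬ R e a) → R d a → (D.map f).prod * f d * f a = f d * (D.map f).prod * f a := by
  intro D
  induction D using List.reverseRecOn with
  | nil => intro a _ _ _ _; simp
  | append_singleton B b ih =>
    intro a hao hD ha hd
    have hba : ¬ R b a := ha b (by simp)
    have hdb : R d b := by
      by_contra hc
      exact hN _ _ _ hc hba hd
    have hbo : ¬ X b := by
      intro hb
      exact hba (hK.o1 b hb a)
    have h1 := ih b hbo (hD.sub (List.sublist_append_left _ _)) (by
      unfold DL at hD
      rw [List.pairwise_append] at hD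
      exact fun e he => hD.2.2 e he b (by simp)) hdb
    have h2 := hK.K2 d b a hd hba (fun h => hao (h.2 ▸ h.1))
    rw [List.map_append, List.prod_append, List.map_singleton, List.prod_singleton]
    calc (B.map f).prod * f b * f d * f a = (B.map f).prod * (f b * f d * f a) := by simp only [mul_assoc]
      _ = (B.map f).prod * f d * f b * f a := by rw [← h2]; simp only [mul_assoc]
      _ = f d * (B.map f).prod * f b * f a := by rw [h1]
      _ = f d * ((B.map f).prod * f b) * f a := by simp only [mul_assoc]

theorem ring_XD1 (hK : Ks R f X) (hR : ∀ a b c, R a b → R b c → R a c) (hN : ∀ a b c, ¬ R a b → ¬ R b c → ¬ R a c)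
    {D1 D2 A1 A2 : List L} {d a x : L} (h : XD R D1 d D2 A1 a A2 x) (hne : ¬ ∃ o r, X o ∧ A1 ++ [x] = o :: o :: r) :
    (((D1 ++ d :: D2) ++ (A1 ++ a :: A2)).map f).prod * f x =
      f d * (((D1 ++ a :: D2) ++ (A1 ++ x :: A2)).map f).prod := by
  have hA1 : AL R (A1 ++ [x]) := (h.hA' hN).sub (List.Sublist.append (List.Sublist.refl _) (by simp))
  have hA2 : AL R (a :: A2) := h.hA.sub (List.sublist_append_right _ _)
  have hD1 : DL R D1 := h.hD.sub (List.sublist_append_left _ _)
  have hD2 : DL R (d :: D2) := h.hD.sub (List.sublist_append_right _ _)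
  have ha : ¬ X a := fun h0 => h.h4 (hK.o1 a h0 x)
  have eA := lemA hK hR A2 a hA2 h.h4
  have eB := lemB hK hR A1 x hA1 h.h4 hne
  have eC := lemC hK hN D2 d hD2 h.h2
  have eD := lemD hK hN D1 a ha hD1 h.h1 h.h2
  have s1 : (((D1 ++ d :: D2) ++ (A1 ++ a :: A2)).map f).prod * f x =
      (D1.map f).prod * ((d :: D2).map f).prod * (A1.map f).prod * (((a :: A2).map f).prod * f x) := by
    simp only [List.map_append, List.prod_append, mul_assoc]
  have s2 : f d * (((D1 ++ a :: D2) ++ (A1 ++ x :: A2)).map f).prod =
      (f d * (D1.map f).prod * f a) * (D2.map f).prod * ((A1.map f).prod * f x) * (A2.map f).prod := by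
    simp only [List.map_append, List.prod_append, List.map_cons, List.prod_cons, mul_assoc]
  rw [s1, s2, eA, ← eD]
  calc (D1.map f).prod * ((d :: D2).map f).prod * (A1.map f).prod * (f a * f x * (A2.map f).prod)
      = (D1.map f).prod * ((d :: D2).map f).prod * ((A1.map f).prod * f a * f x) * (A2.map f).prod := by
        simp only [mul_assoc]
    _ = (D1.map f).prod * (((d :: D2).map f).prod * f a) * (A1.map f).prod * f x * (A2.map f).prod := by
        rw [eB]; simp only [mul_assoc]
    _ = _ := by rw [eC]; simp only [mul_assoc]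

theorem ring_XD (hK : Ks R f X) (hR : ∀ a b c, R a b → R b c → R a c) (hN : ∀ a b c, ¬ R a b → ¬ R b c → ¬ R a c)
    {D1 D2 A1 A2 : List L} {d a x : L} (h : XD R D1 d D2 A1 a A2 x) :
    (((D1 ++ d :: D2) ++ (A1 ++ a :: A2)).map f).prod * f x =
      f d * (((D1 ++ a :: D2) ++ (A1 ++ x :: A2)).map f).prod := by
  by_cases hne : ∃ o r, X o ∧ A1 ++ [x] = o :: o :: r
  swap
  · exact ring_XD1 hK hR hN h hne
  obtain ⟨o, r, hXo, hr⟩ := hne
  match A1, hr, h with
  | [], hr, _ => simp at hr
  | [c], hr, h =>
    simp only [List.singleton_append, List.cons.injEq] at hr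
    obtain ⟨rfl, rfl, _⟩ := hr
    by_cases ho : x ∈ D1 ++ d :: D2
    · obtain ⟨V, Y, hXY⟩ := List.append_of_mem ho
      have hY : Y = [] := by
        by_contra h0
        obtain ⟨y, hy⟩ := List.exists_mem_of_ne_nil _ h0
        have := h.hD
        unfold DL at this
        rw [hXY, List.pairwise_append, List.pairwise_cons] at this
        exact this.2.1.1 y hy (hK.o1 x hXo y)
      subst hY
      rw [hXY]
      have e1 : ((((V ++ [x]) ++ ([x] ++ a :: A2)).map f).prod) =
          (V.map f).prod * (f x * f x) * ((a :: A2).map f).prod := by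
        simp only [List.map_append, List.prod_append, List.map_singleton, List.prod_singleton, mul_assoc]
      have e2 : ((((D1 ++ a :: D2) ++ ([x] ++ x :: A2)).map f).prod) =
          ((D1 ++ a :: D2).map f).prod * (f x * f x) * (A2.map f).prod := by
        simp only [List.map_append, List.prod_append, mul_assoc, List.map_cons, List.prod_cons, List.map_nil,
          List.prod_nil, one_mul]
      rw [e1, e2, hK.o3 x hXo]
      simp
    · have hx : ∀ e ∈ D1 ++ d :: D2, ¬ R e x := by
        intro e he hc
        have := hK.o2 x hXo e hc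
        subst this
        exact ho he
      have h' : XD R D1 d (D2 ++ [x]) [] a A2 x := by
        refine ⟨?_, h.hA.sub (List.sublist_append_right _ _), h.h1, h.h2, by simp, h.h4⟩
        have e : D1 ++ d :: (D2 ++ [x]) = (D1 ++ d :: D2) ++ [x] := by simp
        rw [e]
        unfold DL
        rw [List.pairwise_append]
        refine ⟨h.hD, by simp, fun b hb c hc => ?_⟩
        have : c = x := by simpa using hc
        rw [this]; exact hx b hb
      have := ring_XD1 hK hR hN h' (by simp)
      have e1 : (D1 ++ d :: D2) ++ ([x] ++ a :: A2) = (D1 ++ d :: (D2 ++ [x])) ++ ([] ++ a :: A2) := by simp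
      have e2 : (D1 ++ a :: D2) ++ ([x] ++ x :: A2) = (D1 ++ a :: (D2 ++ [x])) ++ ([] ++ x :: A2) := by simp
      rw [e1, e2]
      exact this
  | c :: c' :: A1, hr, h =>
    simp only [List.cons_append, List.cons.injEq] at hr
    obtain ⟨rfl, rfl, _⟩ := hr
    have e0 : ∀ V Y : List L, ((V ++ ((c' :: c' :: A1) ++ Y)).map f).prod = 0 := by
      intro V Y
      have : ((V ++ ((c' :: c' :: A1) ++ Y)).map f).prod =
          (V.map f).prod * (f c' * f c') * (A1.map f).prod * (Y.map f).prod := by
        simp only [List.map_append, List.prod_append, mul_assoc, List.map_cons, List.prod_cons]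
      rw [this, hK.o3 c' hXo]
      simp
    rw [e0, e0]
    simp

/-- the crossing `u x = y u'` is an identity of products -/
theorem Cross.ring (hK : Ks R f X) (hR : ∀ a b c, R a b → R b c → R a c) (hN : ∀ a b c, ¬ R a b → ¬ R b c → ¬ R a c)
    {u u' : List L} {x y : L} (h : Cross R u x y u') : (u.map f).prod * f x = f y * (u'.map f).prod := by
  obtain ⟨D1, D2, A1, a, A2, rfl, rfl, h⟩ := h
  exact ring_XD hK hR hN h

end Pool.Agent.H19.RWp
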