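import Pool.Agent.H19.RWp.Pieri

/-!
# A family with the Pieri rule is determined by its one row members

In the definitions of `Pool.Agent.H71.RW.Defs`.
-/

set_option autoImplicit false

open Finset

namespace Pool.Agent.H19.RWi

open Pool.Agent.H71.RW Pool.Agent.H19.RWp.B

theorem add_last (l : List ℕ) : add l l.length = l ++ [1] := by
  induction l with
  | nil => rfl
  | cons n l ih => simp [add, ih]

theorem add_last' (l : List ℕ) (j : ℕ) : add (l ++ [j]) l.length = l ++ [j + 1] := by
  induction l with
  | nil => rfl
  | cons n l ih => simp [add, ih]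

theorem not_st_two : ∀ (l : List ℕ), ¬ St (add (l ++ [1]) (l.length + 1)) := by
  intro l
  induction l with
  | nil =>
    intro h
    simp only [List.nil_append, List.length_nil, add, St] at h
    exact absurd (h.2.2 1 (by simp)) (lt_irrefl 1)
  | cons n l ih =>
    intro h
    simp only [List.cons_append, List.length_cons, add, St] at h
    exact ih h.2.1

theorem add_length_lt : ∀ {l : List ℕ} {s : ℕ}, s < l.length → (add l s).length = l.length := by
  intro l
  induction l with
  | nil => intro s h; simp at h
  | cons n l ih =>
    intro s h
    cases s with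
    | zero => simp [add]
    | succ s =>
      simp only [add, List.length_cons]
      rw [ih (by simpa using h)]

/-- the entries of a hook path are at most the number of rows (at most one new row) -/
theorem hp_le : ∀ {ρ l : List ℕ}, Hk Rp ρ → Adm l ρ → ∀ r ∈ ρ, r ≤ l.length := by
  intro ρ
  induction ρ with
  | nil => intro l _ _ r hr; simp at hr
  | cons s ρ ih =>
    rintro l hk ⟨h1, h2⟩ r hr
    have h3 := add_le h1
    rcases List.mem_cons.1 hr with rfl | hr
    · exact h3
    have hk' : Hk Rp ρ := hk_sub hk (List.sublist_cons_self _ _)
    by_cases hs : s = l.length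
    · -- the next entry
      match ρ, hr, h2, hk with
      | t :: ρ, hr, h2, hk =>
        have ht : t ≤ s := by
          by_contra hc
          have h5 := h2.1
          rw [hs, add_last] at h5
          have h6 := add_le h5
          have h7 : t = l.length + 1 := by
            simp only [List.length_append, List.length_singleton] at h6
            omega
          rw [h7] at h5
          exact not_st_two l h5
        have : ∀ r ∈ ρ, r ≤ t := by
          intro r hr
          have h8 : [s, t, r].Sublist (s :: t :: ρ) := by
            refine List.Sublist.cons_cons _ (List.Sublist.cons_cons _ ?_)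
            rw [List.singleton_sublist]; exact hr
          have h9 : Hk Rp [s, t, r] := hk_sub hk h8
          exact hk_three (R := Rp) h9 ht
        rcases List.mem_cons.1 hr with rfl | hr
        · omega
        · have := this r hr
          omega
    · rw [← add_length_lt (l := l) (s := s) (by omega)]
      exact ih hk' h2 r hr

/-- the weighted size -/
def wt : List ℕ → ℕ
  | [] => 0
  | _ :: l => wt l + l.sum

theorem add_sum : ∀ {l : List ℕ} {r : ℕ}, r ≤ l.length → (add l r).sum = l.sum + 1 := by
  intro l
  induction l with
  | nil =>
    intro r hr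
    have : r = 0 := by simpa using hr
    subst this
    simp [add]
  | cons n l ih =>
    intro r hr
    cases r with
    | zero => simp [add]; omega
    | succ r =>
      simp only [add, List.sum_cons, ih (r := r) (by simpa using hr)]
      omega

theorem add_wt : ∀ {l : List ℕ} {r : ℕ}, r ≤ l.length → wt (add l r) = wt l + r := by
  intro l
  induction l with
  | nil =>
    intro r hr
    have : r = 0 := by simpa using hr
    subst this
    simp [add, wt]
  | cons n l ih =>
    intro r hr
    cases r with
    | zero => simp [add, wt]
    | succ r =>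
      simp only [add, wt, ih (r := r) (by simpa using hr), add_sum (r := r) (l := l) (by simpa using hr)]
      omega

theorem addL_wt : ∀ {ρ l : List ℕ}, Adm l ρ → wt (addL l ρ) = wt l + ρ.sum := by
  intro ρ
  induction ρ with
  | nil => intro l _; simp [addL]
  | cons r ρ ih =>
    rintro l ⟨h1, h2⟩
    rw [addL, ih h2, add_wt (add_le h1), List.sum_cons]
    omega

theorem adm_st : ∀ {ρ l : List ℕ}, St l → Adm l ρ → St (addL l ρ) := by
  intro ρ
  induction ρ with
  | nil => intro l hl _; exact hl
  | cons r ρ ih => rintro l _ ⟨h1, h2⟩; exact ih h1 h2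

theorem st_last : ∀ {l : List ℕ} {m j : ℕ}, St (l ++ [m]) → 0 < j → j ≤ m → St (l ++ [j]) := by
  intro l
  induction l with
  | nil => intro m j _ hj _; exact ⟨hj, trivial, by simp⟩
  | cons n l ih =>
    rintro m j ⟨h1, h2, h3⟩ hj hm
    refine ⟨h1, ih h2 hj hm, ?_⟩
    intro a ha
    rcases l with _ | ⟨b, l⟩
    · have ha' : a = j := by
        have : some j = some a := ha
        simpa using this.symm
      have h4 : m < n := h3 m rfl
      omega
    · exact h3 a ha

theorem st_init : ∀ {l : List ℕ} {m : ℕ}, St (l ++ [m]) → St l := by
  intro l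
  induction l with
  | nil => intro m _; trivial
  | cons n l ih =>
    rintro m ⟨h1, h2, h3⟩
    refine ⟨h1, ih h2, ?_⟩
    intro a ha
    rcases l with _ | ⟨b, l⟩
    · simp at ha
    · simp only [List.head?_cons, Option.mem_def, Option.some.injEq] at ha
      exact h3 a (by simp [ha])

/-- all the boxes in the new row -/
theorem const_path {l : List ℕ} : ∀ {j k : ℕ}, St (l ++ [j + k]) → 0 < j →
    Adm (l ++ [j]) (List.replicate k l.length) ∧ addL (l ++ [j]) (List.replicate k l.length) = l ++ [j + k] := by
  intro j k
  induction k generalizing j with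
  | zero => intro _ _; exact ⟨trivial, rfl⟩
  | succ k ih =>
    intro h hj
    have h1 := ih (j := j + 1) (by rwa [show j + 1 + k = j + (k + 1) by omega]) (by omega)
    rw [List.replicate_succ]
    refine ⟨⟨?_, ?_⟩, ?_⟩
    · rw [add_last']
      exact st_last h (by omega) (by omega)
    · rw [add_last']; exact h1.1
    · rw [addL, add_last', h1.2, show j + 1 + k = j + (k + 1) by omega]

theorem const_path' {l : List ℕ} {m : ℕ} (h : St (l ++ [m])) (hm : 1 ≤ m) :
    Adm l (List.replicate m l.length) ∧ addL l (List.replicate m l.length) = l ++ [m] := by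
  obtain ⟨k, rfl⟩ : ∃ k, m = 1 + k := ⟨m - 1, by omega⟩
  have h1 := const_path (l := l) (j := 1) (k := k) h (by omega)
  rw [add_comm, List.replicate_succ]
  refine ⟨⟨?_, ?_⟩, ?_⟩
  · rw [add_last]
    exact st_last h (by omega) (by omega)
  · rw [add_last]; exact h1.1
  · rw [addL, add_last, h1.2, add_comm]

theorem sum_lt {N : ℕ} : ∀ {ρ : List ℕ}, (∀ r ∈ ρ, r ≤ N) → ρ ≠ List.replicate ρ.length N →
    ρ.sum < N * ρ.length := by
  intro ρ
  induction ρ with
  | nil => intro _ h; exact absurd rfl h
  | cons r ρ ih =>
    intro h1 h2
    have h3 : r ≤ N := h1 r (by simp)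
    have h4 : ∀ r ∈ ρ, r ≤ N := fun r hr => h1 r (by simp [hr])
    have h6 : ρ.sum ≤ N * ρ.length := by
      have := List.sum_le_card_nsmul ρ N h4
      simpa [mul_comm] using this
    rw [List.sum_cons, List.length_cons, mul_add, mul_one]
    by_cases h5 : r = N
    · have : ρ ≠ List.replicate ρ.length N := by
        intro h
        apply h2
        rw [List.length_cons, List.replicate_succ, ← h, h5]
      have := ih h4 this
      omega
    · omega

variable {S : Type*} [Ring S] {Φ : List ℕ → S}

/-- a subring which contains all the one row members contains the whole family -/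
theorem uni (hΦ : Pie Φ) (A : Subring S) (hA : ∀ k, 1 ≤ k → Φ [k] ∈ A) : ∀ l, St l → Φ l ∈ A := by
  classical
  have key : ∀ n, ∀ l, wt l = n → St l → Φ l ∈ A := by
    intro n
    induction n using Nat.strong_induction_on with
    | _ n ih =>
      intro l hn hl
      rcases List.eq_nil_or_concat l with rfl | ⟨l', m, rfl⟩
      · rw [hΦ.1]; exact A.one_mem
      · rw [List.concat_eq_append] at hn hl ⊢
        have hm : 1 ≤ m := by
          clear hn ih
          induction l' with
          | nil => exact hl.1
          | cons a l' ih => exact ih hl.2.1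
        rcases Nat.eq_zero_or_pos l'.length with h0 | h0
        · have : l' = [] := List.eq_nil_of_length_eq_zero h0
          subst this
          exact hA m hm
        · obtain ⟨h1, h2⟩ := const_path' hl hm
          have hl' := st_init hl
          have hmem : List.replicate m l'.length ∈ HP l' m := by
            rw [mem_HP]
            refine ⟨by simp, ⟨[], _, rfl, by unfold DL; simp, ?_⟩, h1⟩
            unfold AL Rp
            rw [List.pairwise_replicate]
            exact Or.inr le_rfl
          have hw : wt (l' ++ [m]) = wt l' + l'.length * m := by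
            rw [← h2, addL_wt h1]
            simp [mul_comm]
          have h3 := hΦ.2 l' hl' m hm
          rw [← Finset.add_sum_erase _ _ hmem, h2] at h3
          have h4 : Φ (l' ++ [m]) = Φ l' * Φ [m] - ∑ ρ ∈ (HP l' m).erase (List.replicate m l'.length), Φ (addL l' ρ) := by
            rw [h3]; abel
          rw [h4]
          have h0m : 0 < l'.length * m := Nat.mul_pos h0 hm
          refine A.sub_mem (A.mul_mem (ih (wt l') (by omega) l' rfl hl') (hA m hm)) (A.sum_mem ?_)
          intro ρ hρ
          rw [mem_erase, mem_HP] at hρ
          obtain ⟨h5, h6, h7, h8⟩ := hρ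
          refine ih (wt (addL l' ρ)) ?_ _ rfl (adm_st hl' h8)
          rw [addL_wt h8, ← hn, hw]
          have := sum_lt (hp_le h7 h8) (by rw [h6]; exact h5)
          rw [h6] at this
          omega
  exact fun l hl => key _ l rfl hl

/-- commutation -/
theorem uni_commute (hΦ : Pie Φ) (D : S) (hD : ∀ k, 1 ≤ k → Φ [k] * D = D * Φ [k]) (l : List ℕ) (hl : St l) :
    Φ l * D = D * Φ l := by
  have := uni hΦ (Subring.centralizer {D}) (fun k hk => by
    rw [Subring.mem_centralizer_iff]
    intro g hg
    have : g = D := by simpa using hg
    rw [this]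
    exact (hD k hk).symm) l hl
  rw [Subring.mem_centralizer_iff] at this
  exact (this D (by simp)).symm

/-- two families with the Pieri rule and the same one row members are equal -/
theorem uni_eq {Ψ : List ℕ → S} (hΦ : Pie Φ) (hΨ : Pie Ψ) (h : ∀ k, 1 ≤ k → Φ [k] = Ψ [k]) (l : List ℕ) (hl : St l) :
    Φ l = Ψ l := by
  have hP : Pie (fun l => ((Φ l, Ψ l) : S × S)) := by
    refine ⟨?_, fun l hl k hk => ?_⟩
    · exact Prod.ext hΦ.1 hΨ.1
    · refine Prod.ext ?_ ?_
      · rw [Prod.fst_sum]
        exact hΦ.2 l hl k hk
      · rw [Prod.snd_sum]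
        exact hΨ.2 l hl k hk
  have := uni hP ((RingHom.fst S S).eqLocus (RingHom.snd S S)) (fun k hk => h k hk) l hl
  exact this

end Pool.Agent.H19.RWi
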